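import Mathlib
import Pool.Agent.Q7.SZ.Nrm

/-!
# No growth: constancy on normal subgroups with a quotient of elements of prime power order
-/

set_option autoImplicit false
set_option linter.unusedSectionVars false

namespace Pool.Agent.Q7.GR

open Pool.Agent.H302R2 Pool.Agent.H302R3 Pool.Agent.H541R3.ART Pool.Agent.W446.AS
  Pool.Agent.Q7.TZ Pool.Agent.Q7.SZ

variable {G : Type} [Group G] [Finite G]

/-- the `p`-part of an element of `p`-power order modulo `N` -/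
lemma exists_ppart {N : Subgroup G} [hN : N.Normal] {p k : ℕ} (hp : p.Prime) {z : G}
    (hz : z ^ (p ^ k) ∈ N) : ∃ u a : ℕ, (z ^ u) ^ p ^ a = 1 ∧ (z ^ u)⁻¹ * z ∈ N := by
  classical
  have ho : orderOf z ≠ 0 := (orderOf_pos z).ne'
  obtain ⟨a, m, hm, hom⟩ := Nat.exists_eq_pow_mul_and_not_dvd ho p hp.ne_one
  have hcop : Nat.Coprime (p ^ a) m := Nat.Coprime.pow_left a ((Nat.Prime.coprime_iff_not_dvd hp).mpr hm)
  obtain ⟨u, hu1, hu0⟩ := Nat.chineseRemainder hcop 1 0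
  refine ⟨u, a, ?_, ?_⟩
  · rw [← pow_mul, ← orderOf_dvd_iff_pow_eq_one, hom, mul_comm]
    exact Nat.mul_dvd_mul (Nat.modEq_zero_iff_dvd.mp hu0) dvd_rfl
  · have h1 : ((z : G ⧸ N)) ^ p ^ k = 1 := by
      rw [← QuotientGroup.mk_pow]
      exact (QuotientGroup.eq_one_iff _).mpr hz
    have h2 : ((z : G ⧸ N)) ^ (p ^ a * m) = 1 := by
      rw [← QuotientGroup.mk_pow, ← hom, pow_orderOf_eq_one]
      rfl
    obtain ⟨j, -, hj⟩ := (Nat.dvd_prime_pow hp).mp (orderOf_dvd_of_pow_eq_one h1)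
    have h3 : orderOf (z : G ⧸ N) ∣ p ^ a := by
      have h4 := orderOf_dvd_of_pow_eq_one h2
      refine Nat.Coprime.dvd_of_dvd_mul_right ?_ h4
      rw [hj]
      exact Nat.Coprime.pow_left j ((Nat.Prime.coprime_iff_not_dvd hp).mpr hm)
    have h4 : ((z : G ⧸ N)) ^ u = (z : G ⧸ N) := by
      conv_rhs => rw [← pow_one (z : G ⧸ N)]
      rw [pow_eq_pow_iff_modEq]
      exact hu1.of_dvd h3
    rw [← QuotientGroup.eq_one_iff, QuotientGroup.mk_mul, QuotientGroup.mk_inv,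
      QuotientGroup.mk_pow, h4, inv_mul_cancel]

/-- two `p`-elements in the same coset are conjugate under `N` to elements of one Sylow subgroup -/
lemma exists_sylow_pair {N : Subgroup G} [hN : N.Normal] {p : ℕ} [hp : Fact p.Prime] {x y : G}
    {a b : ℕ} (htop : Subgroup.zpowers x ⊔ N = ⊤) (hx : x ^ p ^ a = 1) (hy : y ^ p ^ b = 1) :
    ∃ P : Sylow p G, x ∈ P ∧ ∃ n ∈ N, n * y * n⁻¹ ∈ P := by
  classical
  have hpg : ∀ (w : G) (c : ℕ), w ^ p ^ c = 1 → IsPGroup p (Subgroup.zpowers w) := by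
    intro w c hw
    rintro ⟨_, k, rfl⟩
    refine ⟨c, ?_⟩
    apply Subtype.ext
    change (w ^ k) ^ p ^ c = 1
    rw [← zpow_natCast, ← zpow_mul, mul_comm, zpow_mul, zpow_natCast, hw, one_zpow]
  obtain ⟨P, hP⟩ := (hpg x a hx).exists_le_sylow
  obtain ⟨Q, hQ⟩ := (hpg y b hy).exists_le_sylow
  obtain ⟨g, hg⟩ := MulAction.exists_smul_eq G Q P
  have hxP : x ∈ P := hP (Subgroup.mem_zpowers x)
  refine ⟨P, hxP, ?_⟩
  have h1 : g * y * g⁻¹ ∈ P := by
    rw [← hg]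
    have h2 : y ∈ Q := hQ (Subgroup.mem_zpowers y)
    exact Subgroup.smul_mem_pointwise_smul y (MulAut.conj g) (Q : Subgroup G) h2
  have h2 : g ∈ Subgroup.zpowers x ⊔ N := by rw [htop]; exact Subgroup.mem_top g
  obtain ⟨c, ⟨i, rfl⟩, n, hn, hg'⟩ := Subgroup.mem_sup_of_normal_right.mp h2
  refine ⟨n, hn, ?_⟩
  have hxi : x ^ i ∈ P := P.zpow_mem hxP i
  have h3 : n * y * n⁻¹ = (x ^ i)⁻¹ * (g * y * g⁻¹) * x ^ i := by
    rw [← hg']
    group
  rw [h3]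
  exact P.mul_mem (P.mul_mem (P.inv_mem hxi) h1) hxi

/-- `p`-elements in the same coset -/
lemma const_p {N : Subgroup G} [hN : N.Normal] {p : ℕ} (hp : p.Prime) {θ : G → ℂ}
    (hθ : IsSolHeilbronn θ) (h : ∀ n ∈ N, θ n = θ 1) {x y : G} {a b : ℕ}
    (hx : x ^ p ^ a = 1) (hy : y ^ p ^ b = 1) (hxy : x⁻¹ * y ∈ N) : θ y = θ x := by
  classical
  have : Fact p.Prime := ⟨hp⟩
  set T : Subgroup G := Subgroup.zpowers x ⊔ N with hT
  have hxT : x ∈ T := (le_sup_left : Subgroup.zpowers x ≤ T) (Subgroup.mem_zpowers x)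
  have hNT : N ≤ T := le_sup_right
  have hyT : y ∈ T := by
    have h1 : y = x * (x⁻¹ * y) := by group
    rw [h1]
    exact T.mul_mem hxT (hNT hxy)
  have hn : (N.subgroupOf T).Normal := hN.subgroupOf T
  have htop : Subgroup.zpowers (⟨x, hxT⟩ : T) ⊔ N.subgroupOf T = ⊤ := by
    rw [eq_top_iff]
    rintro ⟨z, hz⟩ -
    obtain ⟨_, ⟨i, rfl⟩, n, hn', rfl⟩ := Subgroup.mem_sup_of_normal_right.mp hz
    have h1 : (⟨x ^ i * n, hz⟩ : T) = (⟨x, hxT⟩ : T) ^ i * ⟨n, hNT hn'⟩ := by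
      apply Subtype.ext
      simp
    change (⟨x ^ i * n, hz⟩ : T) ∈ _
    rw [h1]
    exact Subgroup.mul_mem_sup (Subgroup.zpow_mem_zpowers _ i) hn'
  obtain ⟨P, hxP, n, hnN, hyP⟩ := exists_sylow_pair (G := T) (N := N.subgroupOf T) (p := p)
    (x := ⟨x, hxT⟩) (y := ⟨y, hyT⟩) (a := a) (b := b) htop (Subtype.ext (by simpa using hx))
    (Subtype.ext (by simpa using hy))
  have hsP : Group.IsSolvable P := by
    have := P.isPGroup'.isNilpotent
    infer_instance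
  have hθP : IsSolHeilbronn (fun e : P => θ ((e : T) : G)) := hθ.comp (T.subtype.comp (P : Subgroup T).subtype)
  have hnP : ((N.subgroupOf T).subgroupOf (P : Subgroup T)).Normal := hn.subgroupOf _
  have hc := const_sol _ P rfl ((N.subgroupOf T).subgroupOf (P : Subgroup T)) hnP
    inferInstance _ hθP (by
      rintro ⟨⟨z, hz⟩, hz'⟩ hzN
      exact h z hzN) ⟨⟨x, hxT⟩, hxP⟩
      (⟨⟨x, hxT⟩, hxP⟩⁻¹ * ⟨n * ⟨y, hyT⟩ * n⁻¹, hyP⟩) (by
        change x⁻¹ * ((n : G) * y * (n : G)⁻¹) ∈ N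
        have h1 : x⁻¹ * (n * y * (n : G)⁻¹) = (x⁻¹ * n * x⁻¹⁻¹) * ((x⁻¹ * y) * (n : G)⁻¹) := by group
        rw [h1]
        exact N.mul_mem (hN.conj_mem _ hnN x⁻¹) (N.mul_mem hxy (N.inv_mem hnN)))
  rw [mul_inv_cancel_left] at hc
  have h2 : θ ((n : G) * y * (n : G)⁻¹) = θ x := hc
  rw [← h2, hθ.conj]

/-- **Constancy**: if all elements of `G / N` have prime power order, then a function with
nonnegative multiplicities on solvable subgroups which is constant on `N` is constant on the cosets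
of `N`. -/
theorem const_pp {N : Subgroup G} [hN : N.Normal]
    (hpp : ∀ g : G, ∃ p k : ℕ, p.Prime ∧ g ^ p ^ k ∈ N) {θ : G → ℂ}
    (hθ : IsSolHeilbronn θ) (h : ∀ n ∈ N, θ n = θ 1) (x : G) {n : G} (hn : n ∈ N) :
    θ (x * n) = θ x := by
  obtain ⟨p, k, hp, hx⟩ := hpp x
  have hy : (x * n) ^ p ^ k ∈ N := by
    rw [← QuotientGroup.eq_one_iff] at hx ⊢
    rw [QuotientGroup.mk_pow, QuotientGroup.mk_mul, (QuotientGroup.eq_one_iff n).mpr hn, mul_one,
      ← QuotientGroup.mk_pow, hx]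
  obtain ⟨u, a, hu1, hu2⟩ := exists_ppart hp hx
  obtain ⟨v, b, hv1, hv2⟩ := exists_ppart hp hy
  have key : ∀ (z : G) (w : ℕ), (z ^ w)⁻¹ * z ∈ N → θ z = θ (z ^ w) := by
    intro z w hw
    have h1 : z ^ w * ((z ^ w)⁻¹ * z) = z := mul_inv_cancel_left _ _
    have h2 := hθ.mul_of_comm (x := z ^ w) (y := (z ^ w)⁻¹ * z) (by
      rw [mul_inv_cancel_left, mul_assoc]
      have h3 : z * z ^ w = z ^ w * z := (Commute.refl z).pow_right w
      rw [h3, inv_mul_cancel_left]) (h _ hw)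
    rw [h1] at h2
    exact h2
  rw [key x u hu2, key (x * n) v hv2]
  refine const_p hp hθ h hu1 hv1 ?_
  have h1 : (x ^ u)⁻¹ * (x * n) ^ v = ((x ^ u)⁻¹ * x) * (n * (((x * n) ^ v)⁻¹ * (x * n))⁻¹) := by
    group
  rw [h1]
  exact N.mul_mem hu2 (N.mul_mem hn (N.inv_mem hv2))

end Pool.Agent.Q7.GR
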