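import Mathlib
import Pool.Agent.Q7.GR.Const
import Pool.Agent.Q7.SZ.Cen

/-!
# The new part over a solvable normal subgroup
-/

set_option autoImplicit false
set_option linter.unusedSectionVars false

namespace Pool.Agent.Q7.GR

open Pool.Agent.H302R2 Pool.Agent.H302R3 Pool.Agent.H302R5 Pool.Agent.H541R3.ART
  Pool.Agent.W446.AS Pool.Agent.Q7.TZ Pool.Agent.Q7.SZ

/-- orthogonality on the dual group -/
lemma dual_sum {A : Type} [CommGroup A] [Finite A] [Fintype (A →* ℂˣ)] [DecidableEq A] (a : A) :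
    ∑ μ : A →* ℂˣ, (((μ a)⁻¹ : ℂˣ) : ℂ) = if a = 1 then (Nat.card A : ℂ) else 0 := by
  classical
  by_cases ha : a = 1
  · rw [if_pos ha, ha]
    simp only [map_one, inv_one, Units.val_one, Finset.sum_const, nsmul_eq_mul, mul_one]
    rw [Finset.card_univ, ← Nat.card_eq_fintype_card,
      CommGroup.card_monoidHom_of_hasEnoughRootsOfUnity A ℂ]
  · rw [if_neg ha]
    obtain ⟨φ, hφ⟩ := CommGroup.exists_apply_ne_one_of_hasEnoughRootsOfUnity A ℂ ha
    have h1 : ∑ μ : A →* ℂˣ, (((μ a)⁻¹ : ℂˣ) : ℂ) =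
        (((φ a)⁻¹ : ℂˣ) : ℂ) * ∑ μ : A →* ℂˣ, (((μ a)⁻¹ : ℂˣ) : ℂ) := by
      conv_lhs => rw [← Equiv.sum_comp (Equiv.mulLeft φ)]
      rw [Finset.mul_sum]
      refine Finset.sum_congr rfl fun μ _ => ?_
      rw [Equiv.coe_mulLeft, MonoidHom.mul_apply, mul_inv, Units.val_mul]
    have h2 : (((φ a)⁻¹ : ℂˣ) : ℂ) ≠ 1 := by
      intro h
      apply hφ
      rw [← inv_eq_one, ← Units.val_eq_one]
      exact h
    have h3 : (1 - (((φ a)⁻¹ : ℂˣ) : ℂ)) * ∑ μ : A →* ℂˣ, (((μ a)⁻¹ : ℂˣ) : ℂ) = 0 := by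
      rw [sub_mul, one_mul, ← h1, sub_self]
    rcases mul_eq_zero.mp h3 with h4 | h4
    · exact absurd (sub_eq_zero.mp h4).symm h2
    · exact h4

variable {G : Type} [Group G] [Finite G]

/-- the sum for a character of an abelian normal subgroup -/
lemma csum_nat (A : Subgroup G) [hAn : A.Normal] (hA : ∀ a ∈ A, ∀ b ∈ A, a * b = b * a)
    [Fintype A] {θ : G → ℂ} (hθ : IsSolHeilbronn θ) {H : Subgroup G} [Fintype H]
    (hH : Group.IsSolvable H) (ψ : H →* ℂˣ) (μ : A →* ℂˣ) :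
    ∃ n : ℕ, ∑ h : H, (∑ a : A, θ (a * h) * (((μ a)⁻¹ : ℂˣ) : ℂ)) * (((ψ h)⁻¹ : ℂˣ) : ℂ) = n := by
  classical
  let S : Subgroup H :=
    { carrier := {h | ∀ a : A, μ (MulAut.conjNormal (h : G) a) = μ a}
      mul_mem' := by
        intro x y hx hy a
        rw [Subgroup.coe_mul, map_mul, MulAut.mul_apply, hx, hy]
      one_mem' := by
        intro a
        rw [Subgroup.coe_one, map_one, MulAut.one_apply]
      inv_mem' := by
        intro x hx a
        rw [← hx, Subgroup.coe_inv, ← MulAut.mul_apply, ← map_mul, mul_inv_cancel, map_one,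
          MulAut.one_apply] }
  let act : S →* MulAut A := (MulAut.conjNormal (H := A)).comp (H.subtype.comp S.subtype)
  let φ : A ⋊[act] S →* G := SemidirectProduct.lift A.subtype (H.subtype.comp S.subtype) (by
    intro g
    ext a
    simp [act])
  let χ : A ⋊[act] S →* ℂˣ := SemidirectProduct.lift μ (ψ.comp S.subtype) (by
    intro g
    ext a
    have h1 := g.2 a
    simp [act]
    exact congrArg Units.val h1)
  have hAs : Group.IsSolvable A := sol_of_comm fun a b => Subtype.ext (hA a a.2 b b.2)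
  have hfin : Finite (A ⋊[act] S) := Finite.of_equiv _ SemidirectProduct.equivProd.symm
  have : Fintype (A ⋊[act] S) := Fintype.ofFinite _
  have hsol : Group.IsSolvable (A ⋊[act] S) := by
    refine Group.isSolvable_of_ker_le_range (SemidirectProduct.inl) (SemidirectProduct.rightHom) ?_
    rw [SemidirectProduct.range_inl_eq_ker_rightHom]
  obtain ⟨n, hn⟩ := hθ.mult_hom hsol φ χ
  refine ⟨n * Nat.card (A ⋊[act] S), ?_⟩
  rw [Nat.cast_mul, ← hn]
  -- vanishing off the stabiliser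
  have hoff : ∀ h : H, h ∉ S → ∑ a : A, θ (a * h) * (((μ a)⁻¹ : ℂˣ) : ℂ) = 0 := by
    intro h hh
    have hex : ∃ b : A, μ (MulAut.conjNormal (h : G) b) ≠ μ b := by
      by_contra hcon
      push Not at hcon
      exact hh hcon
    obtain ⟨b, hb⟩ := hex
    set c : A := b * (MulAut.conjNormal (h : G) b)⁻¹ with hc
    have hc' : (c : G) = (b : G) * ((h : G) * (b : G) * (h : G)⁻¹)⁻¹ := by
      rw [hc, Subgroup.coe_mul, Subgroup.coe_inv, MulAut.conjNormal_apply]
    have h1 : ∑ a : A, θ (a * h) * (((μ a)⁻¹ : ℂˣ) : ℂ) =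
        ((μ c : ℂˣ) : ℂ) * ∑ a : A, θ (a * h) * (((μ a)⁻¹ : ℂˣ) : ℂ) := by
      conv_rhs => rw [← Equiv.sum_comp (Equiv.mulRight c)]
      rw [Finset.mul_sum]
      refine Finset.sum_congr rfl fun a _ => ?_
      have h2 : θ (a * h) = θ (((a * c : A) : G) * h) := by
        rw [← hθ.conj (a * h) b]
        congr 1
        rw [Subgroup.coe_mul, hc']
        have h3 : (b : G) * a = a * b := hA b b.2 a a.2
        calc (b : G) * (a * h) * (b : G)⁻¹ = (b * a) * h * (b : G)⁻¹ := by group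
          _ = _ := by rw [h3]; group
      have h3 : ((μ c : ℂˣ) : ℂ) * (θ (((a * c : A) : G) * h) * (((μ (a * c))⁻¹ : ℂˣ) : ℂ)) =
          θ (((a * c : A) : G) * h) * (((μ a)⁻¹ : ℂˣ) : ℂ) := by
        have h4 : ((μ c : ℂˣ) : ℂ) * (((μ (a * c))⁻¹ : ℂˣ) : ℂ) = (((μ a)⁻¹ : ℂˣ) : ℂ) := by
          rw [← Units.val_mul, map_mul μ a c, mul_inv_rev, mul_inv_cancel_left]
        rw [← h4]
        ring
      rw [Equiv.coe_mulRight, h3, h2]
    have h2 : ((μ c : ℂˣ) : ℂ) ≠ 1 := by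
      intro h3
      apply hb
      have h4 : μ c = 1 := Units.ext h3
      rw [hc, map_mul, map_inv, mul_inv_eq_one] at h4
      exact h4.symm
    have h3 : (1 - ((μ c : ℂˣ) : ℂ)) * ∑ a : A, θ (a * h) * (((μ a)⁻¹ : ℂˣ) : ℂ) = 0 := by
      rw [sub_mul, one_mul, ← h1, sub_self]
    rcases mul_eq_zero.mp h3 with h4 | h4
    · exact absurd (sub_eq_zero.mp h4).symm h2
    · exact h4
  have h5 : ∑ e : A ⋊[act] S, θ (φ e) * (((χ e)⁻¹ : ℂˣ) : ℂ) =
      ∑ h : S, (∑ a : A, θ (a * h) * (((μ a)⁻¹ : ℂˣ) : ℂ)) * (((ψ h)⁻¹ : ℂˣ) : ℂ) := by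
    rw [← Equiv.sum_comp SemidirectProduct.equivProd.symm, Fintype.sum_prod_type_right]
    refine Finset.sum_congr rfl fun h _ => ?_
    rw [Finset.sum_mul]
    refine Finset.sum_congr rfl fun a _ => ?_
    have h6 : φ (SemidirectProduct.equivProd.symm (a, h)) = a * h := rfl
    have h7 : χ (SemidirectProduct.equivProd.symm (a, h)) = μ a * ψ h := rfl
    rw [h6, h7, mul_inv, Units.val_mul, mul_assoc]
  rw [h5]
  have h6 : ∀ h : S, (∑ a : A, θ (a * h) * (((μ a)⁻¹ : ℂˣ) : ℂ)) * (((ψ h)⁻¹ : ℂˣ) : ℂ) =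
      (fun h : H => (∑ a : A, θ (a * h) * (((μ a)⁻¹ : ℂˣ) : ℂ)) * (((ψ h)⁻¹ : ℂˣ) : ℂ)) h :=
    fun h => rfl
  rw [Finset.sum_congr rfl (fun h _ => h6 h),
    ← Finset.sum_subtype (Finset.univ.filter fun h => h ∈ S) (by simp)
      (fun h : H => (∑ a : A, θ (a * h) * (((μ a)⁻¹ : ℂˣ) : ℂ)) * (((ψ h)⁻¹ : ℂˣ) : ℂ)),
    Finset.sum_filter]
  refine Finset.sum_congr rfl fun h _ => ?_
  by_cases hh : h ∈ S
  · rw [if_pos hh]
  · rw [if_neg hh, hoff h hh, zero_mul]

/-- the sum of the multiplicities of a virtual character with a linear character -/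
lemma virt_int {θ : G → ℂ} (hv : Virt θ) (H : Subgroup G) (ψ : H →* ℂˣ) :
    ∃ l : ℤ, ∑ᶠ h : H, θ h * (((ψ h)⁻¹ : ℂˣ) : ℂ) = l * Nat.card H := by
  classical
  have : Fintype H := Fintype.ofFinite H
  obtain ⟨l, hl⟩ := (hv.comp H.subtype).pr_int (lin_irr ψ)
  refine ⟨l, ?_⟩
  rw [← hl, ← sum_eq_pr, finsum_eq_sum_of_fintype]
  refine Finset.sum_congr rfl fun h _ => ?_
  rw [map_inv]
  rfl

variable {Y : Type} [Group Y] [Finite Y]

open Classical in
/-- the part of `θ` which is new over the kernel of `π` -/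
noncomputable def newp [Fintype G] (π : G →* Y) (θ : G → ℂ) : G → ℂ :=
  fun g => θ g - push π θ (π g)

lemma newp_virt [Fintype G] {π : G →* Y} (hπ : Function.Surjective π) {θ : G → ℂ} (hv : Virt θ) :
    Virt (newp π θ) := by
  have h1 := (hv.push hπ).comp π
  exact sub_mem (S := AddSubgroup (G → ℂ)) hv h1

/-- abelian kernels -/
lemma newp_ab [Fintype G] {π : G →* Y} (hπ : Function.Surjective π)
    (hA : ∀ a ∈ π.ker, ∀ b ∈ π.ker, a * b = b * a) {θ : G → ℂ} (hθ : IsSolHeilbronn θ)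
    (hv : Virt θ) : IsSolHeilbronn (newp π θ) where
  conj g h := by
    unfold newp
    rw [hθ.conj, map_mul, map_mul, map_inv, push_conj π hπ hθ.conj]
  mult H hH ψ := by
    classical
    have : Fintype H := Fintype.ofFinite H
    set A : Subgroup G := π.ker with hAdef
    have : Fintype A := Fintype.ofFinite A
    have hcA : ∀ a b : A, a * b = b * a := fun a b => Subtype.ext (hA a a.2 b b.2)
    let _ : CommGroup A := { (inferInstance : Group A) with mul_comm := hcA }
    have : Finite (A →* ℂˣ) := by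
      obtain ⟨e⟩ := CommGroup.monoidHom_mulEquiv_of_hasEnoughRootsOfUnity A ℂ
      exact Finite.of_equiv _ e.symm.toEquiv
    have : Fintype (A →* ℂˣ) := Fintype.ofFinite _
    have hAc : (Nat.card A : ℂ) ≠ 0 := card_ne
    choose n hn using fun μ : A →* ℂˣ => csum_nat A hA hθ hH ψ μ
    obtain ⟨l, hl⟩ := virt_int (newp_virt hπ hv) H ψ
    -- the main identity
    have hkey : (Nat.card A : ℂ) * ∑ h : H, newp π θ h * (((ψ h)⁻¹ : ℂˣ) : ℂ) =
        ((∑ μ ∈ Finset.univ.erase (1 : A →* ℂˣ), n μ : ℕ) : ℂ) := by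
      have h1 : ((∑ μ : A →* ℂˣ, n μ : ℕ) : ℂ) =
          (Nat.card A : ℂ) * ∑ h : H, θ h * (((ψ h)⁻¹ : ℂˣ) : ℂ) := by
        rw [Nat.cast_sum, Finset.sum_congr rfl (fun μ _ => (hn μ).symm), Finset.sum_comm,
          Finset.mul_sum]
        refine Finset.sum_congr rfl fun h _ => ?_
        rw [← Finset.sum_mul, Finset.sum_comm]
        have h2 : ∀ a : A, ∑ μ : A →* ℂˣ, θ (a * h) * (((μ a)⁻¹ : ℂˣ) : ℂ) =
            if a = 1 then (Nat.card A : ℂ) * θ h else 0 := by
          intro a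
          rw [← Finset.mul_sum, dual_sum a]
          split_ifs with ha
          · rw [ha, Subgroup.coe_one, one_mul, mul_comm]
          · rw [mul_zero]
        rw [Finset.sum_congr rfl (fun a _ => h2 a), Finset.sum_ite_eq' Finset.univ (1 : A),
          if_pos (Finset.mem_univ _), mul_assoc]
      have h3 : (n 1 : ℂ) =
          (Nat.card A : ℂ) * ∑ h : H, push π θ (π h) * (((ψ h)⁻¹ : ℂˣ) : ℂ) := by
        rw [← hn 1, Finset.mul_sum]
        refine Finset.sum_congr rfl fun h _ => ?_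
        rw [push_apply, ← mul_assoc, ← mul_assoc, mul_inv_cancel₀ hAc, one_mul]
        congr 1
        refine Finset.sum_congr rfl fun a _ => ?_
        rw [MonoidHom.one_apply, inv_one, Units.val_one, mul_one, ← hθ.conj (a * h) (a : G)⁻¹]
        congr 1
        group
      have h4 : ∑ h : H, newp π θ h * (((ψ h)⁻¹ : ℂˣ) : ℂ) =
          ∑ h : H, θ h * (((ψ h)⁻¹ : ℂˣ) : ℂ) -
            ∑ h : H, push π θ (π h) * (((ψ h)⁻¹ : ℂˣ) : ℂ) := by
        rw [← Finset.sum_sub_distrib]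
        refine Finset.sum_congr rfl fun h _ => ?_
        unfold newp
        ring
      rw [h4, mul_sub, ← h1, ← h3, ← Finset.add_sum_erase _ _ (Finset.mem_univ (1 : A →* ℂˣ))]
      push_cast
      ring
    rw [finsum_eq_sum_of_fintype] at hl
    have h5 : (Nat.card A : ℤ) * (l * Nat.card H) =
        ((∑ μ ∈ Finset.univ.erase (1 : A →* ℂˣ), n μ : ℕ) : ℤ) := by
      rw [hl] at hkey
      exact_mod_cast hkey
    have h6 : 0 ≤ l := by
      by_contra hcon
      push Not at hcon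
      have h7 : (0 : ℤ) < Nat.card A := by exact_mod_cast Nat.card_pos
      have h8 : (0 : ℤ) < Nat.card H := by exact_mod_cast Nat.card_pos
      have h9 : (Nat.card A : ℤ) * (l * Nat.card H) < 0 :=
        mul_neg_of_pos_of_neg h7 (mul_neg_of_neg_of_pos hcon h8)
      rw [h5] at h9
      exact absurd h9 (not_lt.mpr (Int.natCast_nonneg _))
    obtain ⟨k, hk⟩ := Int.eq_ofNat_of_zero_le h6
    refine ⟨k, ?_⟩
    rw [finsum_eq_sum_of_fintype, hl, hk]
    simp

/-- push forward along a map with solvable kernel -/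
lemma push_sol [Fintype G] {π : G →* Y} (hπ : Function.Surjective π)
    (hs : Group.IsSolvable π.ker) {θ : G → ℂ} (hθ : IsSolHeilbronn θ) :
    IsSolHeilbronn (push π θ) := by
  refine push_isSol hπ hθ.conj fun V hV χ => ?_
  let ρ : V.comap π →* V :=
    { toFun := fun u => ⟨π u, u.2⟩
      map_one' := Subtype.ext (map_one π)
      map_mul' := fun a b => Subtype.ext (map_mul π _ _) }
  have hle : π.ker ≤ V.comap π := fun x hx => by
    rw [Subgroup.mem_comap, MonoidHom.mem_ker.mp hx]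
    exact one_mem V
  have hsol : Group.IsSolvable (V.comap π) := by
    refine Group.isSolvable_of_ker_le_range (Subgroup.inclusion hle) ρ ?_
    intro x hx
    exact ⟨⟨x, congrArg Subtype.val hx⟩, rfl⟩
  obtain ⟨n, hn⟩ := hθ.mult (V.comap π) hsol (χ.comp ρ)
  exact ⟨n, hn⟩

/-- push forward twice -/
lemma push_push [Fintype G] {Z : Type} [Group Z] [Finite Z] [Fintype Y] {π : G →* Y}
    (hπ : Function.Surjective π) {σ : Y →* Z} (_hσ : Function.Surjective σ) (θ : G → ℂ) :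
    push σ (push π θ) = push (σ.comp π) θ := by
  classical
  funext z
  unfold push
  have h1 : Nat.card (σ.comp π).ker = Nat.card π.ker * Nat.card σ.ker := by
    have h2 := card_comap hπ σ.ker
    rw [← h2]
    rfl
  have h3 : ∀ y : Y, (if σ y = z then (Nat.card π.ker : ℂ)⁻¹ * ∑ g : G, (if π g = y then θ g else 0)
      else 0) = (Nat.card π.ker : ℂ)⁻¹ * ∑ g : G, (if π g = y then (if σ y = z then θ g else 0)
        else 0) := by
    intro y
    split_ifs
    · rfl
    · simp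
  rw [Finset.sum_congr rfl (fun y _ => h3 y), ← Finset.mul_sum, Finset.sum_comm, h1,
    ← mul_assoc, Nat.cast_mul, mul_inv, mul_comm (Nat.card π.ker : ℂ)⁻¹]
  congr 1
  refine Finset.sum_congr rfl fun g _ => ?_
  rw [Finset.sum_ite_eq Finset.univ (π g), if_pos (Finset.mem_univ _)]
  rfl

lemma sol_add {a b : G → ℂ} (ha : IsSolHeilbronn a) (hb : IsSolHeilbronn b) :
    IsSolHeilbronn (fun g => a g + b g) where
  conj g h := by rw [ha.conj, hb.conj]
  mult H hH ψ := by
    classical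
    have : Fintype H := Fintype.ofFinite H
    obtain ⟨m, hm⟩ := ha.mult H hH ψ
    obtain ⟨n, hn⟩ := hb.mult H hH ψ
    refine ⟨m + n, ?_⟩
    rw [finsum_eq_sum_of_fintype] at hm hn ⊢
    simp only [add_mul]
    rw [Finset.sum_add_distrib]
    push_cast at hm hn ⊢
    rw [hm, hn]
    ring

/-- **The new part over a solvable kernel** -/
theorem newp_sol : ∀ (m : ℕ) (G Y : Type) [Group G] [Fintype G] [Group Y] [Finite Y],
    Nat.card G = m → ∀ (π : G →* Y), Function.Surjective π → Group.IsSolvable π.ker →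
    ∀ θ : G → ℂ, IsSolHeilbronn θ → Virt θ → IsSolHeilbronn (newp π θ) := by
  classical
  intro m
  induction m using Nat.strong_induction_on with
  | _ m ih =>
  intro G Y _ _ _ _ hG π hπ hs θ hθ hv
  by_cases h0 : π.ker = ⊥
  · refine newp_ab hπ ?_ hθ hv
    rw [h0]
    intro a ha b hb
    rw [Subgroup.mem_bot.mp ha, Subgroup.mem_bot.mp hb]
  obtain ⟨A, hAN, hA0, hAn, hAc⟩ := exists_ab (N := π.ker) inferInstance hs h0
  let π₁ : G →* G ⧸ A := QuotientGroup.mk' A
  have hπ₁ : Function.Surjective π₁ := QuotientGroup.mk'_surjective A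
  have hk₁ : π₁.ker = A := QuotientGroup.ker_mk' A
  let σ : G ⧸ A →* Y := QuotientGroup.lift A π hAN
  have hσ : Function.Surjective σ := by
    intro y
    obtain ⟨g, rfl⟩ := hπ y
    exact ⟨π₁ g, rfl⟩
  have hcomp : σ.comp π₁ = π := MonoidHom.ext fun g => rfl
  have : Fintype (G ⧸ A) := Fintype.ofFinite _
  have hcard : Nat.card (G ⧸ A) < m := by
    rw [← hG, Subgroup.card_eq_card_quotient_mul_card_subgroup A]
    have h2 : 1 < Nat.card A := by
      rw [← Subgroup.one_lt_card_iff_ne_bot] at hA0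
      exact hA0
    have h3 : 0 < Nat.card (G ⧸ A) := Nat.card_pos
    nlinarith
  have hsA : Group.IsSolvable A := sol_of_comm fun a b => Subtype.ext (hAc a a.2 b b.2)
  have hsσ : Group.IsSolvable σ.ker := by
    let q : π.ker →* σ.ker :=
      { toFun := fun u => ⟨π₁ u, u.2⟩
        map_one' := Subtype.ext (map_one π₁)
        map_mul' := fun a b => Subtype.ext (map_mul π₁ _ _) }
    refine Group.isSolvable_of_surjective (f := q) ?_
    rintro ⟨y, hy⟩
    obtain ⟨x, rfl⟩ := hπ₁ y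
    exact ⟨⟨x, hy⟩, rfl⟩
  have h1 := newp_ab hπ₁ (by rw [hk₁]; exact hAc) hθ hv
  have h2 := ih _ hcard (G ⧸ A) Y rfl σ hσ hsσ (push π₁ θ)
    (push_sol hπ₁ (by rw [hk₁]; exact hsA) hθ) (hv.push hπ₁)
  have h3 := sol_add h1 (h2.comp π₁)
  have h4 : newp π θ = fun g => newp π₁ θ g + newp σ (push π₁ θ) (π₁ g) := by
    funext g
    unfold newp
    rw [push_push hπ₁ hσ, hcomp]
    have h5 : σ (π₁ g) = π g := rfl
    rw [h5]
    ring
  rw [h4]
  exact h3

end Pool.Agent.Q7.GR
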