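import Mathlib
import Pool.Agent.Q7.GR.Part
import Pool.Agent.Q7.SZ.Sml
import Pool.Agent.Q7.SZ.Ell
import Pool.Agent.Q7.SZ.SolR

/-!
# Growth of the order of vanishing
-/

set_option autoImplicit false
set_option linter.unusedSectionVars false

namespace Pool.Agent.Q7.GR

open Pool.Agent.H302R2 Pool.Agent.H302R3 Pool.Agent.H302R5 Pool.Agent.H541R3.ART
  Pool.Agent.W446.AS Pool.Agent.Q7.TZ Pool.Agent.Q7.SZ

variable {G : Type} [Group G] [Finite G] {Y : Type} [Group Y] [Finite Y]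

lemma push_comp [Fintype G] {π : G →* Y} (hπ : Function.Surjective π) (f : Y → ℂ) :
    push π (fun g => f (π g)) = f := by
  classical
  have : Fintype π.ker := Fintype.ofFinite _
  funext y
  obtain ⟨g, rfl⟩ := hπ y
  rw [push_apply]
  have h3 : ∀ n : π.ker, f (π (g * n)) = f (π g) := by
    intro n
    rw [map_mul, MonoidHom.mem_ker.mp n.2, mul_one]
  rw [Finset.sum_congr rfl (fun n _ => h3 n), Finset.sum_const, Finset.card_univ, nsmul_eq_mul,
    ← Nat.card_eq_fintype_card, ← mul_assoc, inv_mul_cancel₀ card_ne, one_mul]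

lemma pr_sub [Fintype G] (a b χ : G → ℂ) : pr (fun g => a g - b g) χ = pr a χ - pr b χ := by
  rw [pr_eq, pr_eq, pr_eq, ← mul_sub, ← Finset.sum_sub_distrib]
  congr 1
  exact Finset.sum_congr rfl fun g _ => by ring

lemma pr_newp_new [Fintype G] {π : G →* Y} (θ : G → ℂ) {χ : G → ℂ}
    (hχ : χ ∈ Irr G) (h : ∃ x ∈ π.ker, χ x ≠ χ 1) : pr (newp π θ) χ = pr θ χ := by
  have h1 : pr (fun g => push π θ (π g)) χ = 0 := by
    by_contra hcon
    obtain ⟨x, hx, hx1⟩ := h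
    exact hx1 (const_pr π.ker (fun y n hn => by
      rw [map_mul, MonoidHom.mem_ker.mp hn, mul_one]) hχ hcon x hx)
  change pr (fun g => θ g - push π θ (π g)) χ = _
  rw [pr_sub, h1, sub_zero]

lemma pr_newp_old [Fintype G] {π : G →* Y} (hπ : Function.Surjective π) (θ : G → ℂ) {χ : G → ℂ}
    (hχ : χ ∈ Irr G) (h : ∀ x ∈ π.ker, χ x = χ 1) : pr (newp π θ) χ = 0 := by
  classical
  obtain ⟨e, he, he1⟩ := irr_deg_pos hχ
  obtain ⟨m, ρ, hρ, rfl⟩ := exists_rep hχ
  have : Fintype π.ker := Fintype.ofFinite _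
  have htriv : ∀ g ∈ π.ker, ρ g = 1 := by
    rcases hρ.normal_dich π.ker with h3 | h3
    · exact h3
    · exfalso
      have h4 := h3 1
      have h5 : ∀ x : π.ker, ρ.character (1 * x) = e := by
        intro x
        rw [one_mul, h x x.2, he1]
      rw [Finset.sum_congr rfl (fun x _ => h5 x), Finset.sum_const, nsmul_eq_mul,
        Finset.card_univ] at h4
      have h6 : (Fintype.card π.ker : ℂ) ≠ 0 := by
        rw [← Nat.card_eq_fintype_card]
        exact_mod_cast Nat.card_pos.ne'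
      rcases mul_eq_zero.mp h4 with h7 | h7
      · exact h6 h7
      · exact he.ne' (by exact_mod_cast h7)
  obtain ⟨ψ, hψ, h3⟩ := descend_irr hπ hρ htriv
  have h4 : ρ.character = fun g => ψ (π g) := funext h3
  change pr (fun g => θ g - push π θ (π g)) ρ.character = 0
  rw [pr_sub, h4, ← pr_push hπ, ← pr_push hπ (fun g => push π θ (π g)), push_comp hπ, sub_self]

lemma newp_real [Fintype G] (π : G →* Y) {θ : G → ℂ} (hr : ∀ g, θ g⁻¹ = θ g) (g : G) :
    newp π θ g⁻¹ = newp π θ g := by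
  unfold newp
  rw [hr, map_inv, Pool.Agent.Q7.DB.push_real π hr]

/-- the sum of the old part over a subgroup -/
lemma sum_old [Fintype G] {π : G →* Y} (hπ : Function.Surjective π) (θ : G → ℂ) (H : Subgroup G)
    {m : ℂ} (hm : ∑ᶠ u : (H ⊔ π.ker : Subgroup G), θ u = m * Nat.card (H ⊔ π.ker : Subgroup G)) :
    ∑ᶠ h : H, push π θ (π h) = m * Nat.card H := by
  classical
  have : Fintype H := Fintype.ofFinite H
  set V : Subgroup Y := H.map π with hV
  have : Fintype V := Fintype.ofFinite V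
  let q : H →* V :=
    { toFun := fun u => ⟨π u, u, u.2, rfl⟩
      map_one' := Subtype.ext (map_one π)
      map_mul' := fun a b => Subtype.ext (map_mul π _ _) }
  have hq : Function.Surjective q := by
    rintro ⟨_, x, hx, rfl⟩
    exact ⟨⟨x, hx⟩, rfl⟩
  have hcV : V.comap π = H ⊔ π.ker := Subgroup.comap_map_eq π H
  have h1 := sum_comp_surj q hq (fun y : V => push π θ y)
  have h2 := sum_push π θ V 1
  have h3 : ∑ᶠ y : V, push π θ y * ((((1 : V →* ℂˣ) y)⁻¹ : ℂˣ) : ℂ) = ∑ y : V, push π θ y := by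
    rw [finsum_eq_sum_of_fintype]
    exact Finset.sum_congr rfl fun y _ => by simp
  have h4 : ∑ᶠ u : V.comap π, θ u * ((((1 : V →* ℂˣ) ⟨π u, u.2⟩)⁻¹ : ℂˣ) : ℂ) =
      m * Nat.card (H ⊔ π.ker : Subgroup G) := by
    rw [← hm]
    have h5 : ∑ᶠ u : V.comap π, θ u * ((((1 : V →* ℂˣ) ⟨π u, u.2⟩)⁻¹ : ℂˣ) : ℂ) =
        ∑ᶠ u : V.comap π, θ u := finsum_congr fun u => by simp
    rw [h5, hcV]
  rw [h3, h4] at h2
  have h5 : ∑ᶠ h : H, push π θ (π h) = ∑ e : H, push π θ (q e) := by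
    rw [finsum_eq_sum_of_fintype]
    rfl
  have h6 : Nat.card H = Nat.card q.ker * Nat.card V := by
    rw [← Nat.card_congr (QuotientGroup.quotientKerEquivOfSurjective q hq).toEquiv, mul_comm]
    exact Subgroup.card_eq_card_quotient_mul_card_subgroup _
  have h7 : Nat.card (H ⊔ π.ker : Subgroup G) = Nat.card π.ker * Nat.card V := by
    rw [← hcV, card_comap hπ]
  rw [h5, h1, h2, h6, h7]
  have h8 : (Nat.card π.ker : ℂ) ≠ 0 := card_ne
  push_cast
  field_simp

lemma sum_old_zero [Fintype G] (π : G →* Y) (θ : G → ℂ) (H : Subgroup G)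
    (ψ : H →* ℂˣ) (hψ : ∃ x : H, (x : G) ∈ π.ker ∧ ψ x ≠ 1) :
    ∑ᶠ h : H, push π θ (π h) * (((ψ h)⁻¹ : ℂˣ) : ℂ) = 0 := by
  classical
  have : Fintype H := Fintype.ofFinite H
  obtain ⟨x, hx, hx1⟩ := hψ
  rw [finsum_eq_sum_of_fintype]
  have h1 : ∑ h : H, push π θ (π h) * (((ψ h)⁻¹ : ℂˣ) : ℂ) =
      (((ψ x)⁻¹ : ℂˣ) : ℂ) * ∑ h : H, push π θ (π h) * (((ψ h)⁻¹ : ℂˣ) : ℂ) := by
    conv_lhs => rw [← Equiv.sum_comp (Equiv.mulRight x)]
    rw [Finset.mul_sum]
    refine Finset.sum_congr rfl fun h _ => ?_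
    rw [Equiv.coe_mulRight, Subgroup.coe_mul, map_mul, MonoidHom.mem_ker.mp hx, mul_one, map_mul,
      mul_inv_rev, Units.val_mul]
    ring
  have h2 : (((ψ x)⁻¹ : ℂˣ) : ℂ) ≠ 1 := by
    intro h
    apply hx1
    rw [← inv_eq_one, ← Units.val_eq_one]
    exact h
  have h3 : (1 - (((ψ x)⁻¹ : ℂˣ) : ℂ)) * ∑ h : H, push π θ (π h) * (((ψ h)⁻¹ : ℂˣ) : ℂ) = 0 := by
    rw [sub_mul, one_mul, ← h1, sub_self]
  rcases mul_eq_zero.mp h3 with h4 | h4
  · exact absurd (sub_eq_zero.mp h4).symm h2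
  · exact h4

section

variable {s₀ : ℂ} (A : TwistData G s₀) (N : Subgroup G) [hN : N.Normal]

/-- no growth: the orders of the new twists vanish -/
theorem no_growth (hc : Group.IsSolvable N ∨ ∀ g : G, ∃ p k : ℕ, p.Prime ∧ g ^ p ^ k ∈ N) {r : ℤ}
    (hr : meromorphicOrderAt (A.Lin ⊥ 1) s₀ = (r : WithTop ℤ))
    (hr₀ : meromorphicOrderAt (A.Lin N 1) s₀ = (r : WithTop ℤ)) :
    ∀ x : G, ∀ n ∈ N, (theta A.ord : G → ℂ) (x * n) = (theta A.ord : G → ℂ) x := by
  classical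
  have hθ := A.isSol
  obtain ⟨d, hd⟩ := hθ.exists_deg
  have hrd : r = d := by
    obtain ⟨k, hk1, hk2⟩ := A.order_one' ⊥
    rw [hr] at hk1
    have h1 : r = k := by exact_mod_cast hk1
    rw [finsum_unique] at hk2
    have h2 : (theta A.ord : G → ℂ) 1 = k := by
      have h3 : ((default : (⊥ : Subgroup G)) : G) = 1 := rfl
      rw [h3] at hk2
      rw [hk2]
      simp
    rw [hd] at h2
    have h3 : (d : ℤ) = k := by exact_mod_cast h2
    rw [h1, h3]
  obtain ⟨k, hk1, hk2⟩ := A.order_one' N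
  rw [hr₀] at hk1
  have hk : k = (d : ℤ) := by
    have h1 : r = k := by exact_mod_cast hk1
    rw [← h1, hrd]
  have hconst := const_of_sum hθ hd N (by rw [hk2, hk]; simp)
  rcases hc with hs | hpp
  · exact const_sol _ G rfl N hN hs _ hθ hconst
  · intro x n hn
    exact const_pp hpp hθ hconst x hn

end

end Pool.Agent.Q7.GR
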