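import Mathlib
import Pool.Agent.Q7.GR.Main
import Pool.Agent.Q7.SZ.Gen

/-!
# Growth at most two
-/

set_option autoImplicit false
set_option linter.unusedSectionVars false

namespace Pool.Agent.Q7.GR

open Pool.Agent.H302R2 Pool.Agent.H302R3 Pool.Agent.H302R5 Pool.Agent.H541R3.ART
  Pool.Agent.W446.AS Pool.Agent.Q7.TZ Pool.Agent.Q7.SZ

variable {G : Type} [Group G] [Finite G] {s₀ : ℂ}

/-- the value at `1` -/
lemma theta_one_int (A : TwistData G s₀) {r : ℤ}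
    (hr : meromorphicOrderAt (A.Lin ⊥ 1) s₀ = (r : WithTop ℤ)) : (theta A.ord : G → ℂ) 1 = r := by
  obtain ⟨k, hk1, hk2⟩ := A.order_one' ⊥
  rw [hr] at hk1
  have h1 : r = k := by exact_mod_cast hk1
  rw [finsum_unique] at hk2
  have h3 : ((default : (⊥ : Subgroup G)) : G) = 1 := rfl
  rw [h3] at hk2
  rw [hk2, h1]
  simp

/-- the new part of the twists over a solvable normal subgroup -/
structure NewPart (A : TwistData G s₀) (N : Subgroup G) (r r₀ : ℤ) (n : (G → ℂ) → ℤ) : Prop where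
  sol : IsSolHeilbronn (theta n : G → ℂ)
  one : (theta n : G → ℂ) 1 = ((r - r₀ : ℤ) : ℂ)
  new : ∀ χ ∈ Irr G, (∃ x ∈ N, χ x ≠ χ 1) → n χ = A.ord χ
  old : ∀ χ ∈ Irr G, (∀ x ∈ N, χ x = χ 1) → n χ = 0
  real : (∀ g, (theta A.ord : G → ℂ) g⁻¹ = (theta A.ord : G → ℂ) g) →
    ∀ g, (theta n : G → ℂ) g⁻¹ = (theta n : G → ℂ) g
  /-- subgroups: `F = M ^ H` and `F ∩ L = M ^ (H ⊔ N)` -/
  sub : ∀ (H : Subgroup G) (a b : ℤ), meromorphicOrderAt (A.Lin H 1) s₀ = (a : WithTop ℤ) →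
    meromorphicOrderAt (A.Lin (H ⊔ N) 1) s₀ = (b : WithTop ℤ) →
    ∑ᶠ h : H, (theta n : G → ℂ) h = ((a - b : ℤ) : ℂ) * Nat.card H
  lin : ∀ (H : Subgroup G) (ψ : H →* ℂˣ) (a : ℤ), (∃ x : H, (x : G) ∈ N ∧ ψ x ≠ 1) →
    meromorphicOrderAt (A.Lin H ψ) s₀ = (a : WithTop ℤ) →
    ∑ᶠ h : H, (theta n : G → ℂ) h * (((ψ h)⁻¹ : ℂˣ) : ℂ) = (a : ℂ) * Nat.card H

theorem exists_newPart (A : TwistData G s₀) (N : Subgroup G) [hN : N.Normal]
    (hs : Group.IsSolvable N) {r r₀ : ℤ}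
    (hr : meromorphicOrderAt (A.Lin ⊥ 1) s₀ = (r : WithTop ℤ))
    (hr₀ : meromorphicOrderAt (A.Lin N 1) s₀ = (r₀ : WithTop ℤ)) :
    ∃ n, NewPart A N r r₀ n := by
  classical
  have : Fintype G := Fintype.ofFinite G
  let π : G →* G ⧸ N := QuotientGroup.mk' N
  have hπ : Function.Surjective π := QuotientGroup.mk'_surjective N
  have hk : π.ker = N := QuotientGroup.ker_mk' N
  have hθ := A.isSol
  have hv : Virt (theta A.ord : G → ℂ) := theta_virt A.ord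
  have hsol := newp_sol _ G (G ⧸ N) rfl π hπ (by rw [hk]; exact hs) _ hθ hv
  obtain ⟨n, hn, hpr⟩ := virt_theta (newp_virt hπ hv)
  have hsub : ∀ (H : Subgroup G) (a b : ℤ), meromorphicOrderAt (A.Lin H 1) s₀ = (a : WithTop ℤ) →
      meromorphicOrderAt (A.Lin (H ⊔ N) 1) s₀ = (b : WithTop ℤ) →
      ∑ᶠ h : H, (theta n : G → ℂ) h = ((a - b : ℤ) : ℂ) * Nat.card H := by
    intro H a b ha hb
    have : Fintype H := Fintype.ofFinite H
    obtain ⟨a', ha1, ha2⟩ := A.order_one' H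
    obtain ⟨b', hb1, hb2⟩ := A.order_one' (H ⊔ N)
    rw [ha] at ha1
    rw [hb] at hb1
    have haa : a = a' := by exact_mod_cast ha1
    have hbb : b = b' := by exact_mod_cast hb1
    subst haa hbb
    have hb3 := sum_old hπ (theta A.ord) H (m := (b : ℂ)) (by rw [hk]; exact hb2)
    rw [finsum_eq_sum_of_fintype] at ha2 hb3 ⊢
    rw [← hn]
    have h1 : ∑ h : H, newp π (theta A.ord) h =
        ∑ h : H, theta A.ord (h : G) - ∑ h : H, push π (theta A.ord) (π h) := by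
      rw [← Finset.sum_sub_distrib]
      rfl
    rw [h1, ha2, hb3]
    push_cast
    ring
  refine ⟨n, ?_, ?_, ?_, ?_, ?_, hsub, ?_⟩
  · rw [← hn]
    exact hsol
  · have h1 := hsub ⊥ r r₀ hr (by rw [bot_sup_eq]; exact hr₀)
    rw [finsum_unique] at h1
    have h3 : ((default : (⊥ : Subgroup G)) : G) = 1 := rfl
    rw [h3] at h1
    rw [h1]
    simp
  · intro χ hχ h
    have h1 := hpr χ hχ
    rw [pr_newp_new (π := π) _ hχ (by rw [hk]; exact h), pr_theta A.ord hχ] at h1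
    exact_mod_cast h1.symm
  · intro χ hχ h
    have h1 := hpr χ hχ
    rw [pr_newp_old hπ _ hχ (by rw [hk]; exact h)] at h1
    exact_mod_cast h1.symm
  · intro h g
    rw [← hn]
    exact newp_real π h g
  · intro H ψ a hψ ha
    have : Fintype H := Fintype.ofFinite H
    obtain ⟨a', ha1, ha2⟩ := A.order_mult H ψ
    rw [ha] at ha1
    have haa : a = a' := by exact_mod_cast ha1
    subst haa
    have hb3 := sum_old_zero π (theta A.ord) H ψ (by rw [hk]; exact hψ)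
    rw [finsum_eq_sum_of_fintype] at ha2 hb3 ⊢
    rw [← hn]
    have h1 : ∑ h : H, newp π (theta A.ord) h * (((ψ h)⁻¹ : ℂˣ) : ℂ) =
        ∑ h : H, theta A.ord (h : G) * (((ψ h)⁻¹ : ℂˣ) : ℂ) -
          ∑ h : H, push π (theta A.ord) (π h) * (((ψ h)⁻¹ : ℂˣ) : ℂ) := by
      rw [← Finset.sum_sub_distrib]
      refine Finset.sum_congr rfl fun h _ => ?_
      unfold newp
      ring
    rw [h1, ha2, hb3]
    ring

section

variable {A : TwistData G s₀} {N : Subgroup G} {r r₀ : ℤ} {n : (G → ℂ) → ℤ}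

lemma NewPart.deg (h : NewPart A N r r₀ n) : ∃ d : ℕ, r = r₀ + d ∧ (theta n : G → ℂ) 1 = d := by
  obtain ⟨d, hd⟩ := h.sol.exists_deg
  refine ⟨d, ?_, hd⟩
  have h1 := h.one
  rw [hd] at h1
  have h2 : (d : ℤ) = r - r₀ := by exact_mod_cast h1
  omega

lemma NewPart.heil (h : NewPart A N r r₀ n) (h2 : r ≤ r₀ + 2) : IsHeilbronn (theta n : G → ℂ) := by
  obtain ⟨d, hd, h1⟩ := h.deg
  exact heil_of_sol h.sol (theta_virt n) (by omega) h1

/-- growth at most two: quotients of L-functions are holomorphic -/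
lemma NewPart.mono (h : NewPart A N r r₀ n) (h2 : r ≤ r₀ + 2) (H : Subgroup G) :
    meromorphicOrderAt (A.Lin (H ⊔ N) 1) s₀ ≤ meromorphicOrderAt (A.Lin H 1) s₀ := by
  classical
  have : Fintype H := Fintype.ofFinite H
  obtain ⟨a, ha1, ha2⟩ := A.order_one' H
  obtain ⟨b, hb1, hb2⟩ := A.order_one' (H ⊔ N)
  have h3 := h.sub H a b ha1 hb1
  obtain ⟨m, hm⟩ := (h.heil h2).mult H 1
  have h4 : ∑ᶠ h : H, (theta n : G → ℂ) h * ((((1 : H →* ℂˣ) h)⁻¹ : ℂˣ) : ℂ) =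
      ∑ᶠ h : H, (theta n : G → ℂ) h := finsum_congr fun u => by simp
  rw [h4, h3] at hm
  have h5 : (Nat.card H : ℂ) ≠ 0 := card_ne
  have h6 := mul_right_cancel₀ h5 hm
  have h7 : a - b = (m : ℤ) := by exact_mod_cast h6
  rw [ha1, hb1]
  exact_mod_cast (by omega : b ≤ a)

lemma NewPart.lin_nonneg (h : NewPart A N r r₀ n) (h2 : r ≤ r₀ + 2) (H : Subgroup G)
    (ψ : H →* ℂˣ) (hψ : ∃ x : H, (x : G) ∈ N ∧ ψ x ≠ 1) :
    0 ≤ meromorphicOrderAt (A.Lin H ψ) s₀ := by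
  classical
  obtain ⟨a, ha1, ha2⟩ := A.order_mult H ψ
  have h3 := h.lin H ψ a hψ ha1
  obtain ⟨m, hm⟩ := (h.heil h2).mult H ψ
  rw [h3] at hm
  have h5 : (Nat.card H : ℂ) ≠ 0 := card_ne
  have h6 := mul_right_cancel₀ h5 hm
  have h7 : a = (m : ℤ) := by exact_mod_cast h6
  rw [ha1, h7]
  exact_mod_cast Int.natCast_nonneg m

/-- growth one: exactly one new zero, of a linear character -/
lemma NewPart.stark (h : NewPart A N r r₀ n) (h2 : r = r₀ + 1) :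
    ∃ l : G →* ℂˣ, (∃ x ∈ N, l x ≠ 1) ∧ A.ord (fun g => ((l g : ℂˣ) : ℂ)) = 1 ∧
      ∀ χ ∈ Irr G, (∃ x ∈ N, χ x ≠ χ 1) → χ ≠ (fun g => ((l g : ℂˣ) : ℂ)) → A.ord χ = 0 := by
  classical
  have : Fintype G := Fintype.ofFinite G
  obtain ⟨d, hd, h1⟩ := h.deg
  have hd1 : d = 1 := by omega
  subst hd1
  obtain ⟨l, hl⟩ := (h.heil (by omega)).deg_one (by rw [h1]; simp)
  have hli := lin_irr l
  have hG : (Nat.card G : ℂ) ≠ 0 := card_ne
  have hpair : ∀ χ ∈ Irr G, (n χ : ℂ) = if χ = (fun g => ((l g : ℂˣ) : ℂ)) then 1 else 0 := by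
    intro χ hχ
    rw [← pr_theta n hχ]
    have h3 : (theta n : G → ℂ) = fun g => ((l g : ℂˣ) : ℂ) := funext hl
    rw [h3]
    by_cases he : χ = (fun g => ((l g : ℂˣ) : ℂ))
    · rw [if_pos he, he, pr_eq, pair_self hli, inv_mul_cancel₀ hG]
    · rw [if_neg he, pr_eq, pair_ne hli hχ (fun h => he h.symm), mul_zero]
  have hnl : n (fun g => ((l g : ℂˣ) : ℂ)) = 1 := by
    have h3 := hpair _ hli
    rw [if_pos rfl] at h3
    exact_mod_cast h3
  have hnew : ∃ x ∈ N, l x ≠ 1 := by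
    by_contra hcon
    push Not at hcon
    have h3 := h.old _ hli (by
      intro x hx
      rw [hcon x hx, map_one])
    rw [hnl] at h3
    exact one_ne_zero h3
  refine ⟨l, hnew, ?_, ?_⟩
  · rw [← h.new _ hli ?_, hnl]
    obtain ⟨x, hx, hx1⟩ := hnew
    refine ⟨x, hx, fun h3 => hx1 ?_⟩
    apply Units.ext
    rw [Units.val_one]
    have h4 : ((l x : ℂˣ) : ℂ) = ((l 1 : ℂˣ) : ℂ) := h3
    rw [h4, map_one, Units.val_one]
  · intro χ hχ hne hχl
    rw [← h.new χ hχ hne]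
    have h3 := hpair χ hχ
    rw [if_neg hχl] at h3
    exact_mod_cast h3

/-- growth at most two: bounds for the orders of the new twists -/
lemma NewPart.bounds (h : NewPart A N r r₀ n) (h2 : r ≤ r₀ + 2) {χ : G → ℂ} (hχ : χ ∈ Irr G)
    (hne : ∃ x ∈ N, χ x ≠ χ 1) : -1 ≤ A.ord χ ∧ A.ord χ ≤ 2 := by
  classical
  rw [← h.new χ hχ hne]
  obtain ⟨d, hd, h1⟩ := h.deg
  by_cases hd2 : d = 2
  · subst hd2
    obtain ⟨D, -, -, h3, -⟩ := shape_gen n h.sol (by rw [h1]; norm_num)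
    rcases h3 with ⟨μ, -, h4, h5⟩ | ⟨χ₀, hχ₀, -, h4, M, -, h5, h6⟩ | ⟨χ₀, hχ₀, -, h4, h5, M, -, h6, h7⟩
    · by_cases he : χ = (fun g => ((μ g : ℂˣ) : ℂ))
      · rw [he, h4]; omega
      · rw [h5 χ hχ he]; omega
    · by_cases he : χ = χ₀
      · rw [he, h4]; omega
      · by_cases he2 : χ ∈ M
        · rw [(h5 χ he2).2.2]; omega
        · rw [h6 χ hχ he he2]; omega
    · by_cases he : χ = χ₀
      · rw [he, h4]; omega
      · by_cases he1 : χ = dual D χ₀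
        · rw [he1, h5]; omega
        · by_cases he2 : χ ∈ M
          · rw [(h6 χ he2).2.2]; omega
          · rw [h7 χ hχ he he1 he2]; omega
  · have h3 := small_nonneg n h.sol (r := d) (by omega) h1 χ hχ
    refine ⟨by omega, ?_⟩
    have : Fintype G := Fintype.ofFinite G
    obtain ⟨e, he, he1⟩ := irr_deg_pos hχ
    have h4 : (theta n : G → ℂ) 1 = ((∑ ψ ∈ irrF G, n ψ * (ψ 1).re : ℝ) : ℂ) := by
      unfold theta
      push_cast
      refine Finset.sum_congr rfl fun ψ hψ => ?_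
      obtain ⟨f, -, hf⟩ := irr_deg_pos (mem_irrF.mp hψ)
      rw [hf]
      simp
    rw [h1] at h4
    have h5 : (d : ℝ) = ∑ ψ ∈ irrF G, n ψ * (ψ 1).re := by exact_mod_cast h4
    have h6 : (n χ : ℝ) * (χ 1).re ≤ ∑ ψ ∈ irrF G, n ψ * (ψ 1).re := by
      refine Finset.single_le_sum (f := fun ψ => (n ψ : ℝ) * (ψ 1).re) (fun ψ hψ => ?_)
        (mem_irrF.mpr hχ)
      obtain ⟨f, -, hf⟩ := irr_deg_pos (mem_irrF.mp hψ)
      have h7 := small_nonneg n h.sol (r := d) (by omega) h1 ψ (mem_irrF.mp hψ)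
      have h8 : (0 : ℝ) ≤ n ψ := by exact_mod_cast h7
      rw [hf, Complex.natCast_re]
      positivity
    rw [← h5, he1, Complex.natCast_re] at h6
    have h7 : (n χ : ℝ) ≤ n χ * e := by
      have h8 : (0 : ℝ) ≤ n χ := by exact_mod_cast h3
      have h9 : (1 : ℝ) ≤ e := by exact_mod_cast he
      nlinarith
    have h8 : (n χ : ℝ) ≤ d := h7.trans h6
    have h9 : n χ ≤ (d : ℤ) := by exact_mod_cast h8
    omega

end

end Pool.Agent.Q7.GR
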