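import Mathlib
import Pool.Agent.Q7.GR.Grow
import Pool.Agent.Q7.SZ.Rk2

/-!
# The frame of the new zeros at the centre
-/

set_option autoImplicit false
set_option linter.unusedSectionVars false

namespace Pool.Agent.Q7.GR

open Pool.Agent.H302R2 Pool.Agent.H302R3 Pool.Agent.H302R5 Pool.Agent.H541R3.ART
  Pool.Agent.W446.AS Pool.Agent.Q7.TZ Pool.Agent.Q7.SZ

variable {G : Type} [Group G] [Finite G]

/-- degree two -/
theorem frame_gen (n : (G → ℂ) → ℤ) (hθ : IsSolHeilbronn (theta n : G → ℂ))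
    (h1 : (theta n : G → ℂ) 1 = 2) (hr : ∀ g : G, theta n g⁻¹ = theta n g)
    (hev : ∀ χ ∈ Irr G, Sy χ → Even (n χ)) :
    ∃ (N B : Subgroup G) (l : B →* ℂˣ), N.Normal ∧ N ≤ B ∧ B.index ≤ 2 ∧
      (∀ b : B, l b = 1 ↔ (b : G) ∈ N) ∧ (∀ w, w ∉ B → w * w ∈ N) ∧
      (∀ x ∈ N, ∀ g, (theta n : G → ℂ) (g * x) = (theta n : G → ℂ) g) ∧
      (∀ χ ∈ Irr G, n χ ≠ 0 → ∀ x ∈ N, χ x = χ 1) ∧
      ((∀ b, l b * l b = 1) ∨
        ∀ b : B, theta n b = ((l b : ℂˣ) : ℂ) + (((l b)⁻¹ : ℂˣ) : ℂ)) := by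
  classical
  have hv := theta_virt (G := G) n
  have hpr : ∀ χ ∈ Irr G, pr (theta n) χ ≠ 0 → n χ ≠ 0 := by
    intro χ hχ h h0
    rw [pr_theta n hχ, h0] at h
    exact h (by simp)
  have hpr' : ∀ χ ∈ Irr G, n χ ≠ 0 → pr (theta n) χ ≠ 0 := by
    intro χ hχ h h0
    rw [pr_theta n hχ] at h0
    exact h (by exact_mod_cast h0)
  set N := KerS (theta n : G → ℂ) with hN
  have hN1 : ∀ x ∈ N, (theta n : G → ℂ) x = 2 := by
    intro x hx
    have h2 := theta_kerS hv 1 hx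
    rw [one_mul] at h2
    rw [h2, h1]
  have hN2 : ∀ χ ∈ Irr G, n χ ≠ 0 → ∀ x ∈ N, χ x = χ 1 := by
    intro χ hχ h x hx
    exact mem_kerS.mp hx χ hχ (hpr' χ hχ h)
  have hN4 : ∀ x ∈ N, ∀ g, (theta n : G → ℂ) (g * x) = (theta n : G → ℂ) g :=
    fun x hx g => theta_kerS hv g hx
  rcases central_frame n hθ h1 hr hev with
    ⟨μ, ν, hμ, hν, e1, e2⟩ | ⟨B, l, e1, e2, e3, e4, e5⟩
  · have hsq : ∀ κ : G →* ℂˣ, κ * κ = 1 → ∀ g, ((κ g : ℂˣ) : ℂ) = 1 ∨ ((κ g : ℂˣ) : ℂ) = -1 := by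
      intro κ hκ g
      have h2 : κ g * κ g = 1 := DFunLike.congr_fun hκ g
      have h3 : ((κ g : ℂˣ) : ℂ) * ((κ g : ℂˣ) : ℂ) = 1 := by
        rw [← Units.val_mul, h2, Units.val_one]
      exact mul_self_eq_one_iff.mp h3
    have key : ∀ g, (theta n : G → ℂ) g = 2 → μ g = 1 ∧ ν g = 1 := by
      intro g hg
      rw [e1] at hg
      rcases hsq μ hμ g with h2 | h2 <;> rcases hsq ν hν g with h3 | h3
      · exact ⟨Units.ext h2, Units.ext h3⟩
      · rw [h2, h3] at hg; norm_num at hg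
      · rw [h2, h3] at hg; norm_num at hg
      · rw [h2, h3] at hg; norm_num at hg
    have hN3 : ∀ x, x ∈ N ↔ (theta n : G → ℂ) x = 2 := by
      intro x
      refine ⟨hN1 x, fun hx => ?_⟩
      obtain ⟨h2, h3⟩ := key x hx
      rw [hN, mem_kerS]
      intro χ hχ hp
      rcases e2 χ hχ (hpr χ hχ hp) with h | h
      · rw [h]; simp [h2]
      · rw [h]; simp [h3]
    refine ⟨N, μ.ker, ν.comp μ.ker.subtype, inferInstance, ?_, index_ker_le μ hμ, ?_, ?_, hN4, hN2,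
      Or.inl ?_⟩
    · intro x hx
      exact (key x (hN1 x hx)).1
    · intro b
      have hb : μ b = 1 := b.2
      rw [hN3, e1, hb]
      constructor
      · intro h
        have h' : ν b = 1 := h
        rw [h']
        norm_num
      · intro h
        change ν b = 1
        apply Units.ext
        rw [Units.val_one] at h ⊢
        linear_combination h
    · intro w _
      rw [hN3, e1]
      have h2 : μ (w * w) = 1 := by
        rw [map_mul]; exact DFunLike.congr_fun hμ w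
      have h3 : ν (w * w) = 1 := by
        rw [map_mul]; exact DFunLike.congr_fun hν w
      rw [h2, h3]
      norm_num
    · intro b
      exact DFunLike.congr_fun hν (b : G)
  · have hl : ∀ b : B, (theta n : G → ℂ) b = 2 → l b = 1 := by
      intro b hb
      rw [e3] at hb
      set u := l b with hu
      have h6 : ((u : ℂˣ) : ℂ) * (((u⁻¹ : ℂˣ)) : ℂ) = 1 := by
        rw [← Units.val_mul, mul_inv_cancel, Units.val_one]
      apply Units.ext
      rw [Units.val_one]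
      have h7 : (((u : ℂˣ) : ℂ) - 1) * (((u : ℂˣ) : ℂ) - 1) = 0 := by
        linear_combination ((u : ℂˣ) : ℂ) * hb - h6
      have h8 := mul_self_eq_zero.mp h7
      linear_combination h8
    have hB : ∀ x, (theta n : G → ℂ) x = 2 → x ∈ B := by
      intro x hx
      by_contra hcon
      rw [(e4 x hcon).1] at hx
      norm_num at hx
    have hN3 : ∀ x, x ∈ N ↔ (theta n : G → ℂ) x = 2 := by
      intro x
      refine ⟨hN1 x, fun hx => ?_⟩
      rw [hN, mem_kerS]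
      intro χ hχ hp
      exact e5 χ hχ (hpr χ hχ hp) ⟨x, hB x hx⟩ (hl ⟨x, hB x hx⟩ hx)
    refine ⟨N, B, l, inferInstance, fun x hx => hB x (hN1 x hx), e1, fun b => ?_, fun w hw => ?_,
      hN4, hN2, Or.inr e3⟩
    · rw [hN3]
      refine ⟨fun h => ?_, hl b⟩
      rw [e3, h]
      norm_num
    · obtain ⟨-, h, h2⟩ := e4 w hw
      rw [hN3]
      have h3 := e3 ⟨w * w, h⟩
      rw [h2] at h3
      rw [show (w * w : G) = ((⟨w * w, h⟩ : B) : G) from rfl, h3]
      norm_num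

open Classical in
/-- multiplicities of a linear character -/
lemma n_of_lin (n : (G → ℂ) → ℤ) {l : G →* ℂˣ}
    (hl : ∀ g, (theta n : G → ℂ) g = ((l g : ℂˣ) : ℂ)) {χ : G → ℂ} (hχ : χ ∈ Irr G) :
    n χ = if χ = (fun g => ((l g : ℂˣ) : ℂ)) then 1 else 0 := by
  classical
  have : Fintype G := Fintype.ofFinite G
  have hli := lin_irr l
  have hG : (Nat.card G : ℂ) ≠ 0 := card_ne
  have h3 : (theta n : G → ℂ) = fun g => ((l g : ℂˣ) : ℂ) := funext hl
  have h4 : (n χ : ℂ) = if χ = (fun g => ((l g : ℂˣ) : ℂ)) then 1 else 0 := by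
    rw [← pr_theta n hχ, h3]
    by_cases he : χ = (fun g => ((l g : ℂˣ) : ℂ))
    · rw [if_pos he, he, pr_eq, pair_self hli, inv_mul_cancel₀ hG]
    · rw [if_neg he, pr_eq, pair_ne hli hχ (fun h => he h.symm), mul_zero]
  split_ifs at h4 ⊢
  · exact_mod_cast h4
  · exact_mod_cast h4

/-- **The frame of the new zeros at the centre**, growth at most two -/
theorem newFrame {A : TwistData G 1} (F : FunEq A) {N : Subgroup G} {r r₀ : ℤ}
    {n : (G → ℂ) → ℤ} (h : NewPart A N r r₀ n) (h2 : r ≤ r₀ + 2) :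
    ∃ (N₁ B : Subgroup G) (l : B →* ℂˣ), N₁.Normal ∧ N₁ ≤ B ∧ B.index ≤ 2 ∧
      (∀ b : B, l b = 1 ↔ (b : G) ∈ N₁) ∧ (∀ w, w ∉ B → w * w ∈ N₁) ∧
      (∀ x ∈ N₁, ∀ g, (theta n : G → ℂ) (g * x) = (theta n : G → ℂ) g) ∧
      (∀ χ ∈ Irr G, 0 ≤ n χ) ∧
      (∀ χ ∈ Irr G, n χ ≠ 0 → ∀ x ∈ N₁, χ x = χ 1) ∧
      ((∀ b, l b * l b = 1) ∨
        (r = r₀ + 2 ∧ ∀ b : B, theta n b = ((l b : ℂˣ) : ℂ) + (((l b)⁻¹ : ℂˣ) : ℂ))) := by
  classical
  have : Fintype G := Fintype.ofFinite G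
  obtain ⟨d, hd, h1⟩ := h.deg
  have hreal := h.real F.theta_real
  have hcases : d = 0 ∨ d = 1 ∨ d = 2 := by omega
  rcases hcases with rfl | rfl | rfl
  · have h0 : ∀ g, (theta n : G → ℂ) g = 0 := by
      intro g
      have h3 := h.sol.norm_le g
      rw [h1] at h3
      simpa using h3
    have hn0 : ∀ χ ∈ Irr G, n χ = 0 := by
      intro χ hχ
      have h3 : (n χ : ℂ) = 0 := by
        rw [← pr_theta n hχ, pr_eq]
        simp [h0]
      exact_mod_cast h3
    refine ⟨⊤, ⊤, 1, inferInstance, le_rfl, by simp, fun b => by simp, fun w hw => by simp,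
      fun x _ g => by rw [h0, h0], fun χ hχ => (hn0 χ hχ).ge, fun χ hχ h => absurd (hn0 χ hχ) h,
      Or.inl fun b => by simp⟩
  · obtain ⟨l, hl⟩ := (h.heil (by omega)).deg_one (by rw [h1]; simp)
    have hll : ∀ g, l g * l g = 1 := by
      intro g
      have h3 := hreal g
      rw [hl, hl, map_inv] at h3
      have h4 : (l g)⁻¹ = l g := Units.ext h3
      exact mul_eq_one_iff_inv_eq.mpr h4
    refine ⟨l.ker, ⊤, l.comp (⊤ : Subgroup G).subtype, inferInstance, le_top, by simp,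
      fun b => Iff.rfl, fun w hw => absurd (Subgroup.mem_top w) hw, fun x hx g => ?_,
      fun χ hχ => ?_, fun χ hχ hne x hx => ?_, Or.inl fun b => hll b⟩
    · rw [hl, hl, map_mul, MonoidHom.mem_ker.mp hx, mul_one]
    · rw [n_of_lin n hl hχ]
      split_ifs <;> omega
    · rw [n_of_lin n hl hχ] at hne
      by_cases he : χ = (fun g => ((l g : ℂˣ) : ℂ))
      · rw [he]
        simp [MonoidHom.mem_ker.mp hx]
      · rw [if_neg he] at hne
        exact absurd rfl hne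
  · have hev : ∀ χ ∈ Irr G, Sy χ → Even (n χ) := by
      intro χ hχ hs
      by_cases hnew : ∃ x ∈ N, χ x ≠ χ 1
      · rw [h.new χ hχ hnew]
        exact F.ord_even hχ hs
      · push Not at hnew
        rw [h.old χ hχ hnew]
        exact ⟨0, rfl⟩
    have h1' : (theta n : G → ℂ) 1 = 2 := by rw [h1]; norm_num
    obtain ⟨-, -, -, hnn, -⟩ := central_nonneg n h.sol h1' hreal hev
    obtain ⟨N₁, B, l, e1, e2, e3, e4, e5, e6, e7, e8⟩ := frame_gen n h.sol h1' hreal hev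
    refine ⟨N₁, B, l, e1, e2, e3, e4, e5, e6, hnn, e7, ?_⟩
    rcases e8 with e8 | e8
    · exact Or.inl e8
    · exact Or.inr ⟨by omega, e8⟩

end Pool.Agent.Q7.GR
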