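import Mathlib
import Pool.Agent.Q7.SZ.Bsd

/-!
# Invariants and the complement of the invariants of a normal subgroup
-/

set_option autoImplicit false
set_option linter.unusedSectionVars false

namespace Pool.Agent.Q7.GR

open Pool.Agent.Q7.SZ

variable {G : Type} [Group G] [Finite G] {k : Type} [Field k] [CharZero k] {V : Type}
  [AddCommGroup V] [Module k V] [FiniteDimensional k V] (ρ : Representation k G V)

/-- the sum over a subgroup -/
noncomputable def es (N : Subgroup G) : V →ₗ[k] V := ∑ᶠ x : N, ρ (x : G)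

lemma es_apply (N : Subgroup G) [Fintype N] (v : V) : es ρ N v = ∑ x : N, ρ (x : G) v := by
  rw [es, finsum_eq_sum_of_fintype, LinearMap.sum_apply]

/-- the dimension of the part of the invariants of `H` which is new over `N` -/
noncomputable def rk1 (N H : Subgroup G) : ℕ :=
  Module.finrank k (Representation.invariants (ρ.comp H.subtype) ⊓ LinearMap.ker (es ρ N) :
    Submodule k V)

lemma sup_inv {N H : Subgroup G} {v : V} (h1 : ∀ x ∈ H, ρ x v = v) (h2 : ∀ x ∈ N, ρ x v = v) :
    v ∈ Representation.invariants (ρ.comp (H ⊔ N : Subgroup G).subtype) := by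
  rw [mem_inv]
  let T : Subgroup G :=
    { carrier := {g | ρ g v = v}
      mul_mem' := by
        intro a b ha hb
        change ρ (a * b) v = v
        rw [map_mul, Module.End.mul_apply]
        rw [show ρ b v = v from hb]
        exact ha
      one_mem' := by
        change ρ 1 v = v
        rw [map_one]; rfl
      inv_mem' := by
        intro a ha
        change ρ a⁻¹ v = v
        have h1 : ρ a v = v := ha
        nth_rw 1 [← h1]
        rw [← Module.End.mul_apply, ← map_mul, inv_mul_cancel, map_one]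
        rfl }
  have h3 : H ⊔ N ≤ T := sup_le h1 h2
  exact fun g hg => h3 hg

lemma rk_split (N H : Subgroup G) [hN : N.Normal] : rk ρ H = rk ρ (H ⊔ N) + rk1 ρ N H := by
  classical
  have : Fintype N := Fintype.ofFinite N
  set W := Representation.invariants (ρ.comp H.subtype) with hW
  set f : W →ₗ[k] V := (es ρ N).comp W.subtype with hf
  have hrange : LinearMap.range f =
      Representation.invariants (ρ.comp (H ⊔ N : Subgroup G).subtype) := by
    apply le_antisymm
    · rintro _ ⟨⟨v, hv⟩, rfl⟩
      rw [hW, mem_inv] at hv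
      refine sup_inv ρ (fun h hh => ?_) (fun y hy => ?_)
      · change ρ h (es ρ N v) = es ρ N v
        rw [es_apply, map_sum]
        conv_rhs => rw [← Equiv.sum_comp (MulAut.conjNormal h).toEquiv]
        refine Finset.sum_congr rfl fun x _ => ?_
        have h3 : (((MulAut.conjNormal h).toEquiv x : N) : G) = h * x * h⁻¹ := by
          exact MulAut.conjNormal_apply h x
        rw [h3, ← Module.End.mul_apply, ← map_mul]
        have h4 : ρ (h * x * h⁻¹) v = ρ (h * x) (ρ h⁻¹ v) := by
          rw [map_mul, Module.End.mul_apply]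
        rw [h4, hv h⁻¹ (H.inv_mem hh)]
      · change ρ y (es ρ N v) = es ρ N v
        rw [es_apply, map_sum]
        conv_rhs => rw [← Equiv.sum_comp (Equiv.mulLeft (⟨y, hy⟩ : N))]
        refine Finset.sum_congr rfl fun x _ => ?_
        rw [← Module.End.mul_apply, ← map_mul]
        rfl
    · intro w hw
      rw [mem_inv] at hw
      have hc : (Nat.card N : k) ≠ 0 := by exact_mod_cast Nat.card_pos.ne'
      have hwW : (Nat.card N : k)⁻¹ • w ∈ W := by
        rw [hW, mem_inv]
        intro u hu
        rw [map_smul, hw u ((le_sup_left : H ≤ H ⊔ N) hu)]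
      refine ⟨⟨(Nat.card N : k)⁻¹ • w, hwW⟩, ?_⟩
      change es ρ N ((Nat.card N : k)⁻¹ • w) = w
      rw [map_smul, es_apply, Finset.sum_congr rfl (fun (x : N) _ =>
        hw x ((le_sup_right : N ≤ H ⊔ N) x.2)), Finset.sum_const, Finset.card_univ,
        ← Nat.card_eq_fintype_card, ← Nat.cast_smul_eq_nsmul k, smul_smul, inv_mul_cancel₀ hc,
        one_smul]
  have h1 := LinearMap.finrank_range_add_finrank_ker f
  rw [hrange] at h1
  have h2 : Module.finrank k (LinearMap.ker f) = rk1 ρ N H := by
    have h3 : (LinearMap.ker f).map W.subtype = W ⊓ LinearMap.ker (es ρ N) := by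
      ext v
      constructor
      · rintro ⟨⟨w, hw⟩, hw1, rfl⟩
        exact ⟨hw, hw1⟩
      · rintro ⟨hv1, hv2⟩
        exact ⟨⟨v, hv1⟩, hv2, rfl⟩
    unfold rk1
    rw [← hW, ← h3]
    exact (Submodule.finrank_map_subtype_eq W (LinearMap.ker f)).symm
  rw [h2] at h1
  exact h1.symm

lemma rk1_bot (N : Subgroup G) : rk1 ρ N ⊥ = Module.finrank k (LinearMap.ker (es ρ N)) := by
  unfold rk1
  have h1 : Representation.invariants (ρ.comp (⊥ : Subgroup G).subtype) = ⊤ := by
    rw [eq_top_iff]
    intro v _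
    rw [mem_inv]
    intro u hu
    rw [Subgroup.mem_bot.mp hu, map_one]
    rfl
  rw [h1, top_inf_eq]

lemma new_triv {N N₁ : Subgroup G} (h : rk1 ρ N N₁ = rk1 ρ N ⊥) {v : V} (hv : es ρ N v = 0) :
    ∀ x ∈ N₁, ρ x v = v := by
  rw [rk1_bot] at h
  unfold rk1 at h
  have h1 := Submodule.eq_of_le_of_finrank_eq inf_le_right h
  have h2 : v ∈ LinearMap.ker (es ρ N) := hv
  rw [← h1] at h2
  exact (mem_inv ρ).mp h2.1

lemma rk1_sup {N N₁ : Subgroup G} (h : rk1 ρ N N₁ = rk1 ρ N ⊥) (H : Subgroup G) :
    rk1 ρ N (H ⊔ N₁) = rk1 ρ N H := by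
  unfold rk1
  have h1 : Representation.invariants (ρ.comp (H ⊔ N₁ : Subgroup G).subtype) ⊓
      LinearMap.ker (es ρ N) =
      Representation.invariants (ρ.comp H.subtype) ⊓ LinearMap.ker (es ρ N) := by
    apply le_antisymm
    · rintro v ⟨hv1, hv2⟩
      refine ⟨?_, hv2⟩
      rw [SetLike.mem_coe, mem_inv] at hv1 ⊢
      exact fun u hu => hv1 u ((le_sup_left : H ≤ H ⊔ N₁) hu)
    · rintro v ⟨hv1, hv2⟩
      refine ⟨?_, hv2⟩
      rw [SetLike.mem_coe, mem_inv] at hv1
      exact sup_inv ρ hv1 (new_triv ρ h hv2)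
  rw [h1]

end Pool.Agent.Q7.GR
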