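import Mathlib
import Pool.Agent.Q7.GR.Frame
import Pool.Agent.Q7.GR.Rk
import Pool.Agent.Q7.SZ.Frm

/-!
# The rank conjecture and growth at most two
-/

set_option autoImplicit false
set_option linter.unusedSectionVars false

namespace Pool.Agent.Q7.GR

open Pool.Agent.H302R2 Pool.Agent.H302R3 Pool.Agent.H302R5 Pool.Agent.H541R3.ART
  Pool.Agent.W446.AS Pool.Agent.Q7.TZ Pool.Agent.Q7.SZ

variable {G : Type} [Group G] [Finite G] {s₀ : ℂ}

/-- averages over `H` and `H ⊔ N₁` -/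
lemma avg_sup {θ : G → ℂ} {N₁ : Subgroup G} [hN₁ : N₁.Normal]
    (hc : ∀ x ∈ N₁, ∀ g, θ (g * x) = θ g) (H : Subgroup G) {a b : ℂ}
    (ha : ∑ᶠ h : H, θ h = a * Nat.card H)
    (hb : ∑ᶠ h : (H ⊔ N₁ : Subgroup G), θ h = b * Nat.card (H ⊔ N₁ : Subgroup G)) : a = b := by
  classical
  have : Fintype G := Fintype.ofFinite G
  let π : G →* G ⧸ N₁ := QuotientGroup.mk' N₁
  have hπ : Function.Surjective π := QuotientGroup.mk'_surjective N₁
  have hk : π.ker = N₁ := QuotientGroup.ker_mk' N₁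
  have : Fintype π.ker := Fintype.ofFinite _
  have h1 := sum_old hπ θ H (m := b) (by rw [hk]; exact hb)
  have h2 : ∀ g, push π θ (π g) = θ g := by
    intro g
    rw [push_apply]
    have h3 : ∀ n : π.ker, θ (g * n) = θ g := fun n => hc n (hk.le n.2) g
    rw [Finset.sum_congr rfl (fun n _ => h3 n), Finset.sum_const, Finset.card_univ, nsmul_eq_mul,
      ← Nat.card_eq_fintype_card, ← mul_assoc, inv_mul_cancel₀ card_ne, one_mul]
  have h3 : ∑ᶠ h : H, push π θ (π h) = ∑ᶠ h : H, θ h := finsum_congr fun h => h2 h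
  rw [h3, ha] at h1
  exact mul_right_cancel₀ card_ne h1

section

variable {A : TwistData G s₀} {N : Subgroup G} {r r₀ : ℤ} {n : (G → ℂ) → ℤ}

lemma NewPart.t_sup (h : NewPart A N r r₀ n) {N₁ : Subgroup G} [N₁.Normal]
    (hc : ∀ x ∈ N₁, ∀ g, (theta n : G → ℂ) (g * x) = (theta n : G → ℂ) g) (H : Subgroup G)
    {a b a' b' : ℤ} (ha : meromorphicOrderAt (A.Lin H 1) s₀ = (a : WithTop ℤ))
    (hb : meromorphicOrderAt (A.Lin (H ⊔ N) 1) s₀ = (b : WithTop ℤ))
    (ha' : meromorphicOrderAt (A.Lin (H ⊔ N₁) 1) s₀ = (a' : WithTop ℤ))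
    (hb' : meromorphicOrderAt (A.Lin (H ⊔ N₁ ⊔ N) 1) s₀ = (b' : WithTop ℤ)) :
    a - b = a' - b' := by
  have h1 := avg_sup hc H (h.sub H a b ha hb) (h.sub (H ⊔ N₁) a' b' ha' hb')
  exact_mod_cast h1

/-- **Reduction of the rank conjecture** -/
theorem NewPart.rank_iff (h : NewPart A N r r₀ n) [hN : N.Normal] {N₁ : Subgroup G} [N₁.Normal]
    (hc : ∀ x ∈ N₁, ∀ g, (theta n : G → ℂ) (g * x) = (theta n : G → ℂ) g)
    {k : Type} [Field k] [CharZero k] {V : Type} [AddCommGroup V] [Module k V]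
    [FiniteDimensional k V] (ρ : Representation k G V) :
    (∀ H, RankHolds A ρ H) ↔
      (∀ H, N ≤ H → RankHolds A ρ H) ∧ RankHolds A ρ ⊥ ∧ ∀ H, N₁ ≤ H → RankHolds A ρ H := by
  constructor
  · intro h1
    exact ⟨fun H _ => h1 H, h1 ⊥, fun H _ => h1 H⟩
  rintro ⟨h1, h2, h3⟩ H
  choose o ho ho' using fun H : Subgroup G => A.order_one' H
  have key : ∀ H, RankHolds A ρ H ↔ o H = rk ρ H := by
    intro H
    unfold RankHolds
    rw [ho H]
    constructor
    · intro h4
      exact_mod_cast WithTop.coe_injective h4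
    · intro h4
      rw [h4]
  have e1 := (key ⊥).mp h2
  have e2 := (key N).mp (h1 N le_rfl)
  have e3 := (key N₁).mp (h3 N₁ le_rfl)
  have e4 := (key (N₁ ⊔ N)).mp (h1 _ le_sup_right)
  have s1 := rk_split ρ N N₁
  have s2 := rk_split ρ N ⊥
  rw [bot_sup_eq] at s2
  have t1 := h.t_sup hc ⊥ (ho ⊥) (ho (⊥ ⊔ N)) (ho (⊥ ⊔ N₁)) (ho (⊥ ⊔ N₁ ⊔ N))
  rw [bot_sup_eq, bot_sup_eq] at t1
  have hrk : rk1 ρ N N₁ = rk1 ρ N ⊥ := by omega
  rw [key]
  have e5 := (key (H ⊔ N)).mp (h1 _ le_sup_right)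
  have e6 := (key (H ⊔ N₁)).mp (h3 _ le_sup_right)
  have e7 := (key (H ⊔ N₁ ⊔ N)).mp (h1 _ le_sup_right)
  have t2 := h.t_sup hc H (ho H) (ho (H ⊔ N)) (ho (H ⊔ N₁)) (ho (H ⊔ N₁ ⊔ N))
  have s3 := rk_split ρ N H
  have s4 := rk_split ρ N (H ⊔ N₁)
  have s5 := rk1_sup ρ hrk H
  omega

/-- the extension of the new zeros is crystallographic -/
theorem NewPart.card_range (h : NewPart A N r r₀ n) [hN : N.Normal] {N₁ B : Subgroup G}
    [N₁.Normal] {l : B →* ℂˣ}
    (hc : ∀ x ∈ N₁, ∀ g, (theta n : G → ℂ) (g * x) = (theta n : G → ℂ) g)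
    (hl : ∀ b : B, l b = 1 ↔ (b : G) ∈ N₁)
    (hcase : (∀ b, l b * l b = 1) ∨
      (r = r₀ + 2 ∧ ∀ b : B, theta n b = ((l b : ℂˣ) : ℂ) + (((l b)⁻¹ : ℂˣ) : ℂ)))
    (hr : meromorphicOrderAt (A.Lin ⊥ 1) s₀ = (r : WithTop ℤ))
    (hr₀ : meromorphicOrderAt (A.Lin N 1) s₀ = (r₀ : WithTop ℤ))
    {V : Type} [AddCommGroup V] [Module ℚ V] [FiniteDimensional ℚ V] (ρ : Representation ℚ G V)
    (hrank : ∀ H, RankHolds A ρ H) : Nat.totient (Nat.card l.range) ≤ 2 := by
  classical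
  have : Finite l.range := Finite.of_surjective _ l.rangeRestrict_surjective
  have hcyc : IsCyclic l.range := inferInstance
  rcases hcase with hcase | ⟨hr2, hcase⟩
  · obtain ⟨⟨u, hu⟩, hgen⟩ := hcyc.exists_generator
    obtain ⟨b, hb⟩ := hu
    have h2 : orderOf (⟨u, ⟨b, hb⟩⟩ : l.range) ∣ 2 := by
      apply orderOf_dvd_of_pow_eq_one
      apply Subtype.ext
      change u ^ 2 = 1
      rw [sq, ← hb]
      exact hcase b
    rw [← orderOf_eq_card_of_forall_mem_zpowers hgen]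
    have h3 := Nat.le_of_dvd two_pos h2
    exact (Nat.totient_le _).trans h3
  have : Fintype N := Fintype.ofFinite N
  have hrk : ∀ (H : Subgroup G) (a : ℤ), meromorphicOrderAt (A.Lin H 1) s₀ = (a : WithTop ℤ) →
      (rk ρ H : ℤ) = a := by
    intro H a ha
    have h1 := hrank H
    unfold RankHolds at h1
    rw [ha] at h1
    exact (by exact_mod_cast (WithTop.coe_injective h1).symm)
  choose o ho ho' using fun H : Subgroup G => A.order_one' H
  have hrk1 : ∀ H, (rk1 ρ N H : ℤ) = o H - o (H ⊔ N) := by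
    intro H
    have s1 := rk_split ρ N H
    have s2 := hrk H _ (ho H)
    have s3 := hrk (H ⊔ N) _ (ho (H ⊔ N))
    omega
  set K := LinearMap.ker (es ρ N) with hK
  have hfin : Module.finrank ℚ K = 2 := by
    rw [hK, ← rk1_bot]
    have h1 := hrk1 ⊥
    rw [bot_sup_eq] at h1
    have h2 : o ⊥ = r := by
      have h3 := ho ⊥
      rw [hr] at h3
      exact_mod_cast h3.symm
    have h4 : o N = r₀ := by
      have h3 := ho N
      rw [hr₀] at h3
      exact_mod_cast h3.symm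
    omega
  have : Nontrivial K := Module.nontrivial_of_finrank_pos (R := ℚ) (by omega)
  have ht1 := h.t_sup hc ⊥ (ho ⊥) (ho (⊥ ⊔ N)) (ho (⊥ ⊔ N₁)) (ho (⊥ ⊔ N₁ ⊔ N))
  have hNN : rk1 ρ N N₁ = rk1 ρ N ⊥ := by
    rw [bot_sup_eq, bot_sup_eq] at ht1
    have h1 := hrk1 ⊥
    have h2 := hrk1 N₁
    rw [bot_sup_eq] at h1
    omega
  have hcomm : ∀ (g : G) (v : V), es ρ N (ρ g v) = ρ g (es ρ N v) := by
    intro g v
    rw [es_apply, es_apply, map_sum]
    conv_lhs => rw [← Equiv.sum_comp (MulAut.conjNormal g).toEquiv]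
    refine Finset.sum_congr rfl fun x _ => ?_
    have h3 : (((MulAut.conjNormal g).toEquiv x : N) : G) = g * x * g⁻¹ :=
      MulAut.conjNormal_apply g x
    rw [h3, ← Module.End.mul_apply, ← map_mul, ← Module.End.mul_apply, ← map_mul]
    congr 2
    group
  have hstab : ∀ (g : G), ∀ v ∈ K, ρ g v ∈ K := by
    intro g v hv
    rw [hK, LinearMap.mem_ker] at hv ⊢
    rw [hcomm, hv, map_zero]
  obtain ⟨⟨u, hu⟩, hgen⟩ := hcyc.exists_generator
  obtain ⟨b, hb⟩ := hu
  rw [← orderOf_eq_card_of_forall_mem_zpowers hgen]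
  set m := orderOf (⟨u, ⟨b, hb⟩⟩ : l.range) with hm
  have hmpos : 0 < m := orderOf_pos _
  have hpow : ∀ d : ℕ, l (b ^ d) = 1 ↔ m ∣ d := by
    intro d
    rw [hm, orderOf_dvd_iff_pow_eq_one, map_pow, hb]
    constructor
    · intro h; exact Subtype.ext h
    · intro h; exact congrArg Subtype.val h
  let f : Module.End ℚ K := (ρ (b : G)).restrict (hstab b)
  have hfpow : ∀ (j : ℕ) (v : K), (((f ^ j) v : K) : V) = ρ ((b : G) ^ j) v := by
    intro j
    induction j with
    | zero =>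
      intro v
      rw [pow_zero, pow_zero, map_one]
      rfl
    | succ j ih =>
      intro v
      rw [pow_succ, Module.End.mul_apply, ih, pow_succ, map_mul, Module.End.mul_apply]
      rfl
  rw [← hfin]
  refine totient_le f hmpos ?_ ?_
  · refine LinearMap.ext fun v => Subtype.ext ?_
    rw [hfpow]
    have h2 := (hl (b ^ m)).mp ((hpow m).mpr dvd_rfl)
    rw [Subgroup.coe_pow] at h2
    exact new_triv ρ hNN (v := (v : V)) v.2 _ h2
  · intro d hd hdm v hv
    have hne : l (b ^ d) ≠ 1 := by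
      rw [Ne, hpow]
      intro h2
      have h3 : 0 < d := Nat.pos_of_dvd_of_pos hd hmpos
      exact absurd (Nat.le_of_dvd h3 h2) (by omega)
    set c : B := b ^ d with hcdef
    set H : Subgroup G := Subgroup.zpowers (c : G) with hH
    have hHB : H ≤ B := by
      rw [hH, Subgroup.zpowers_le]
      exact c.2
    have hz := sum_zero (H := H) (theta n) (l.comp (Subgroup.inclusion hHB))
      ⟨⟨(c : G), Subgroup.mem_zpowers _⟩, hne⟩ (fun h => hcase (Subgroup.inclusion hHB h))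
    have h3 := h.sub H _ _ (ho H) (ho (H ⊔ N))
    rw [hz] at h3
    have hk0 : o H - o (H ⊔ N) = 0 := by
      have h2 : (Nat.card H : ℂ) ≠ 0 := by exact_mod_cast Nat.card_pos.ne'
      have h4 : ((o H - o (H ⊔ N) : ℤ) : ℂ) = 0 := by
        rcases mul_eq_zero.mp h3.symm with h | h
        · exact h
        · exact absurd h h2
      exact_mod_cast h4
    have h6 : rk1 ρ N H = 0 := by
      have h5 := hrk1 H
      omega
    unfold rk1 at h6
    rw [Submodule.finrank_eq_zero] at h6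
    have hv' : ρ (c : G) (v : V) = v := by
      have h7 := congrArg (fun w : K => (w : V)) hv
      simp only [hfpow] at h7
      rw [hcdef, Subgroup.coe_pow]
      exact h7
    have h7 : (v : V) ∈ (Representation.invariants (ρ.comp H.subtype) ⊓ LinearMap.ker (es ρ N) :
        Submodule ℚ V) := by
      refine ⟨?_, v.2⟩
      rw [SetLike.mem_coe, mem_inv]
      intro x hx
      obtain ⟨z, rfl⟩ := Subgroup.mem_zpowers_iff.mp hx
      have hnat : ∀ j : ℕ, ρ ((c : G) ^ j) (v : V) = v := by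
        intro j
        induction j with
        | zero => rw [pow_zero, map_one]; rfl
        | succ j ih => rw [pow_succ, map_mul, Module.End.mul_apply, hv', ih]
      have hinv : ∀ g : G, ρ g (v : V) = v → ρ g⁻¹ (v : V) = v := by
        intro g hg
        nth_rw 1 [← hg]
        rw [← Module.End.mul_apply, ← map_mul, inv_mul_cancel, map_one]
        rfl
      rcases Int.eq_nat_or_neg z with ⟨j, rfl | rfl⟩
      · rw [zpow_natCast]; exact hnat j
      · rw [zpow_neg, zpow_natCast]; exact hinv _ (hnat j)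
    rw [h6, Submodule.mem_bot] at h7
    exact Subtype.ext h7

end

end Pool.Agent.Q7.GR
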