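import Mathlib
import Pool.Agent.Q7.GR.Bsd

/-!
# Involutions and dihedral groups
-/

set_option autoImplicit false
set_option linter.unusedSectionVars false

namespace Pool.Agent.Q7.GR

open Pool.Agent.H302R2 Pool.Agent.H302R3 Pool.Agent.H302R5 Pool.Agent.H541R3.ART
  Pool.Agent.W446.AS Pool.Agent.Q7.TZ Pool.Agent.Q7.SZ

variable {G : Type} [Group G] [Finite G]

/-- the maximal value -/
lemma eq_of_re {θ : G → ℂ} (hθ : IsSolHeilbronn θ) {g : G} (h : (θ 1).re ≤ (θ g).re) :
    θ g = θ 1 := by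
  obtain ⟨r, hr⟩ := hθ.exists_deg
  have h1 := hθ.norm_le g
  rw [hr] at h h1 ⊢
  rw [Complex.natCast_re] at h h1
  have h2 : (θ g).re ≤ ‖θ g‖ := Complex.re_le_norm _
  have h3 : (θ g).re = r := le_antisymm (h2.trans h1) h
  have h4 : ‖θ g‖ = r := le_antisymm h1 (h3 ▸ h2)
  have h5 : (θ g).im = 0 := by
    have h6 := Complex.sq_norm (θ g)
    rw [Complex.normSq_apply, h4, h3] at h6
    have h7 : (θ g).im * (θ g).im = 0 := by linarith
    exact mul_self_eq_zero.mp h7
  apply Complex.ext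
  · rw [h3, Complex.natCast_re]
  · rw [h5, Complex.natCast_im]

/-- a function which is maximal outside the kernel of a quadratic character is constant -/
lemma const_quad {θ : G → ℂ} (hθ : IsSolHeilbronn θ) (H : Subgroup G) (hH : Group.IsSolvable H)
    (χ : H →* ℂˣ) (hχ : ∀ h, χ h * χ h = 1) (e₀ : H) (he₀ : χ e₀ ≠ 1)
    (h : ∀ x : H, χ x ≠ 1 → θ x = θ 1) : ∀ x : H, θ x = θ 1 := by
  classical
  have : Fintype H := Fintype.ofFinite H
  obtain ⟨r, hr⟩ := hθ.exists_deg
  have hval : ∀ x : H, ((χ x : ℂˣ) : ℂ) = 1 ∨ ((χ x : ℂˣ) : ℂ) = -1 := by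
    intro x
    have h1 : ((χ x : ℂˣ) : ℂ) * ((χ x : ℂˣ) : ℂ) = 1 := by
      rw [← Units.val_mul, hχ, Units.val_one]
    exact mul_self_eq_one_iff.mp h1
  have hne : ∀ x : H, χ x ≠ 1 ↔ ((χ x : ℂˣ) : ℂ) = -1 := by
    intro x
    rcases hval x with h1 | h1
    · have h2 : χ x = 1 := Units.ext h1
      rw [h2]
      simp only [ne_eq, not_true_eq_false, Units.val_one, false_iff]
      norm_num
    · rw [h1]
      simp only [iff_true]
      intro h2
      rw [h2, Units.val_one] at h1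
      norm_num at h1
  obtain ⟨m, hm⟩ := hθ.mult H hH χ
  rw [finsum_eq_sum_of_fintype] at hm
  have hinv : ∀ x : H, (((χ x)⁻¹ : ℂˣ) : ℂ) = ((χ x : ℂˣ) : ℂ) := by
    intro x
    rw [mul_eq_one_iff_inv_eq.mp (hχ x)]
  have h0 : ((χ e₀ : ℂˣ) : ℂ) = -1 := (hne e₀).mp he₀
  have h1 : ∑ x : H, θ x * (((χ x)⁻¹ : ℂˣ) : ℂ) =
      ∑ x : H, θ (x * e₀ : H) * -((χ x : ℂˣ) : ℂ) := by
    rw [← Equiv.sum_comp (Equiv.mulRight e₀)]
    refine Finset.sum_congr rfl fun x _ => ?_
    rw [Equiv.coe_mulRight, hinv, map_mul, Units.val_mul, h0]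
    ring
  have h2 : ∑ x : H, (θ x - θ (x * e₀ : H)) * ((χ x : ℂˣ) : ℂ) = 2 * ((m : ℂ) * Nat.card H) := by
    have h3 : ∑ x : H, (θ x - θ (x * e₀ : H)) * ((χ x : ℂˣ) : ℂ) =
        ∑ x : H, θ x * (((χ x)⁻¹ : ℂˣ) : ℂ) + ∑ x : H, θ (x * e₀ : H) * -((χ x : ℂˣ) : ℂ) := by
      rw [← Finset.sum_add_distrib]
      refine Finset.sum_congr rfl fun x _ => ?_
      rw [hinv]
      ring
    rw [h3, ← h1, hm]
    ring
  have hterm : ∀ x : H, ((θ x - θ (x * e₀ : H)) * ((χ x : ℂˣ) : ℂ)).re ≤ 0 := by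
    intro x
    have hle : ∀ y : H, (θ y).re ≤ (θ 1).re := fun y =>
      (Complex.re_le_norm _).trans (hθ.norm_le _)
    rcases hval x with h3 | h3
    · have h4 : θ (x * e₀ : H) = θ 1 := by
        apply h
        rw [hne, map_mul, Units.val_mul, h3, h0, one_mul]
      rw [h3, mul_one, h4, Complex.sub_re]
      have := hle x
      linarith
    · have h4 : θ x = θ 1 := h x ((hne x).mpr h3)
      rw [h3, h4, mul_neg_one, neg_sub, Complex.sub_re]
      have := hle (x * e₀)
      linarith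
  have hsum : 0 ≤ ∑ x : H, ((θ x - θ (x * e₀ : H)) * ((χ x : ℂˣ) : ℂ)).re := by
    rw [← Complex.re_sum, h2]
    have h3 : (2 * ((m : ℂ) * (Nat.card H : ℂ))) = ((2 * (m * Nat.card H) : ℕ) : ℂ) := by push_cast; ring
    rw [h3, Complex.natCast_re]
    positivity
  have hzero := (Finset.sum_eq_zero_iff_of_nonpos (fun x _ => hterm x)).mp
    (le_antisymm (Finset.sum_nonpos fun x _ => hterm x) hsum)
  intro x
  rcases hval x with h3 | h3
  · have h4 : θ (x * e₀ : H) = θ 1 := by
      apply h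
      rw [hne, map_mul, Units.val_mul, h3, h0, one_mul]
    have h5 := hzero x (Finset.mem_univ _)
    rw [h3, mul_one, h4, Complex.sub_re, sub_eq_zero] at h5
    exact eq_of_re hθ h5.ge
  · exact h x ((hne x).mpr h3)

section dihedral

variable {n : ℕ} [NeZero n]

/-- the homomorphism from the dihedral group -/
noncomputable def dih (s t : G) (hs : s * s = 1) (ht : t * t = 1) (hn : (s * t) ^ n = 1) :
    DihedralGroup n →* G where
  toFun e := match e with
    | .r i => (s * t) ^ (i.val)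
    | .sr i => s * (s * t) ^ (i.val)
  map_one' := by
    change (s * t) ^ ((0 : ZMod n).val) = 1
    rw [ZMod.val_zero, pow_zero]
  map_mul' := by
    have key : ∀ k l : ℕ, (k : ZMod n) = l → (s * t) ^ k = (s * t) ^ l := by
      intro k l h
      rw [ZMod.natCast_eq_natCast_iff] at h
      rw [pow_eq_pow_iff_modEq]
      exact h.of_dvd (orderOf_dvd_of_pow_eq_one hn)
    have hsx : ∀ k : ℕ, (s * t) ^ k * s = s * ((s * t) ^ k)⁻¹ := by
      intro k
      have hinv : s⁻¹ = s := inv_eq_of_mul_eq_one_left hs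
      have tinv : t⁻¹ = t := inv_eq_of_mul_eq_one_left ht
      have h1 : s * (s * t) * s⁻¹ = (s * t)⁻¹ := by
        rw [mul_inv_rev, hinv, tinv, ← mul_assoc, hs, one_mul]
      have h2 : s * (s * t) ^ k * s⁻¹ = ((s * t) ^ k)⁻¹ := by
        rw [← conj_pow, h1, inv_pow]
      rw [← h2, hinv, ← mul_assoc, ← mul_assoc, hs, one_mul]
    have hneg : ∀ i j : ZMod n, ((s * t) ^ i.val)⁻¹ * (s * t) ^ j.val = (s * t) ^ (j - i).val := by
      intro i j
      rw [inv_mul_eq_iff_eq_mul, ← pow_add]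
      apply key
      push_cast
      rw [ZMod.natCast_zmod_val, ZMod.natCast_zmod_val, ZMod.natCast_zmod_val]
      ring
    have hadd : ∀ i j : ZMod n, (s * t) ^ i.val * (s * t) ^ j.val = (s * t) ^ (i + j).val := by
      intro i j
      rw [← pow_add]
      apply key
      push_cast
      rw [ZMod.natCast_zmod_val, ZMod.natCast_zmod_val, ZMod.natCast_zmod_val]
    rintro (i | i) (j | j)
    · exact (hadd i j).symm
    · change s * (s * t) ^ (j - i).val = (s * t) ^ i.val * (s * (s * t) ^ j.val)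
      rw [← mul_assoc, hsx, mul_assoc, hneg]
    · change s * (s * t) ^ (i + j).val = s * (s * t) ^ i.val * (s * t) ^ j.val
      rw [mul_assoc, hadd]
    · change (s * t) ^ (j - i).val = s * (s * t) ^ i.val * (s * (s * t) ^ j.val)
      rw [← mul_assoc, mul_assoc s, hsx, ← mul_assoc, hs, one_mul, hneg]

/-- the sign -/
noncomputable def dsg : DihedralGroup n →* ℂˣ where
  toFun e := match e with
    | .r _ => 1
    | .sr _ => -1
  map_one' := rfl
  map_mul' := by
    rintro (i | i) (j | j)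
    · exact (one_mul 1).symm
    · exact (one_mul (-1)).symm
    · exact (mul_one (-1)).symm
    · change (1 : ℂˣ) = (-1) * (-1)
      norm_num

omit [NeZero n] in
lemma dih_solv : Group.IsSolvable (DihedralGroup n) := by
  have hcomm : ∀ a b : (dsg (n := n)).ker, a * b = b * a := by
    rintro ⟨a, ha⟩ ⟨b, hb⟩
    rw [MonoidHom.mem_ker] at ha hb
    have hne : (-1 : ℂˣ) ≠ 1 := by
      intro h
      have h1 := congrArg (fun u : ℂˣ => (u : ℂ)) h
      norm_num at h1
    rcases a with i | i <;> rcases b with j | j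
    · apply Subtype.ext
      change DihedralGroup.r i * DihedralGroup.r j = DihedralGroup.r j * DihedralGroup.r i
      rw [DihedralGroup.r_mul_r, DihedralGroup.r_mul_r, add_comm]
    · exact absurd hb hne
    · exact absurd ha hne
    · exact absurd ha hne
  have h1 : Group.IsSolvable (dsg (n := n)).ker := sol_of_comm hcomm
  refine Group.isSolvable_of_ker_le_range (dsg (n := n)).ker.subtype (dsg (n := n)) ?_
  rw [Subgroup.range_subtype]

/-- the normal subgroup generated by the first reflection -/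
def dsub (n : ℕ) : Subgroup (DihedralGroup n) where
  carrier := {e | ∃ i : ZMod n, e = .r (2 * i) ∨ e = .sr (2 * i)}
  mul_mem' := by
    rintro a b ⟨i, rfl | rfl⟩ ⟨j, rfl | rfl⟩
    · exact ⟨i + j, Or.inl (by rw [DihedralGroup.r_mul_r]; congr 1; ring)⟩
    · exact ⟨j - i, Or.inr (by rw [DihedralGroup.r_mul_sr]; congr 1; ring)⟩
    · exact ⟨i + j, Or.inr (by rw [DihedralGroup.sr_mul_r]; congr 1; ring)⟩
    · exact ⟨j - i, Or.inl (by rw [DihedralGroup.sr_mul_sr]; congr 1; ring)⟩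
  one_mem' := ⟨0, Or.inl (by rw [mul_zero]; rfl)⟩
  inv_mem' := by
    rintro a ⟨i, rfl | rfl⟩
    · exact ⟨-i, Or.inl (by rw [DihedralGroup.inv_r]; congr 1; ring)⟩
    · exact ⟨i, Or.inr (by rw [DihedralGroup.inv_sr])⟩

lemma dsub_normal (n : ℕ) : (dsub n).Normal where
  conj_mem := by
    rintro a ⟨i, rfl | rfl⟩ (j | j)
    · exact ⟨i, Or.inl (by
        rw [DihedralGroup.r_mul_r, DihedralGroup.inv_r, DihedralGroup.r_mul_r]; congr 1; ring)⟩
    · exact ⟨-i, Or.inl (by
        rw [DihedralGroup.sr_mul_r, DihedralGroup.inv_sr, DihedralGroup.sr_mul_sr]; congr 1; ring)⟩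
    · exact ⟨i - j, Or.inr (by
        rw [DihedralGroup.r_mul_sr, DihedralGroup.inv_r, DihedralGroup.sr_mul_r]; congr 1; ring)⟩
    · exact ⟨j - i, Or.inr (by
        rw [DihedralGroup.sr_mul_sr, DihedralGroup.inv_sr, DihedralGroup.r_mul_sr]
        congr 1; ring)⟩

end dihedral

/-- **Dihedral groups**: an involution at which `θ` is maximal may be omitted. -/
theorem dih_mul {θ : G → ℂ} (hθ : IsSolHeilbronn θ) {s t : G} (hs : s * s = 1) (ht : t * t = 1)
    (h : θ s = θ 1) : θ (s * t) = θ t := by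
  classical
  set n := orderOf (s * t) with hn
  have hpos : 0 < n := orderOf_pos _
  have : NeZero n := ⟨hpos.ne'⟩
  set φ : DihedralGroup n →* G := dih s t hs ht (pow_orderOf_eq_one _) with hφ
  have hsol : Group.IsSolvable (DihedralGroup n) := dih_solv
  have hfin : Finite (DihedralGroup n) := Finite.of_fintype _
  have hη := hθ.comp φ
  have h1 : ∀ i : ZMod n, θ (φ (.sr (2 * i))) = θ 1 := by
    intro i
    have h2 : (DihedralGroup.sr (2 * i) : DihedralGroup n) =
        DihedralGroup.r (-i) * DihedralGroup.sr 0 * (DihedralGroup.r (-i))⁻¹ := by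
      rw [DihedralGroup.inv_r, DihedralGroup.r_mul_sr, DihedralGroup.sr_mul_r]
      congr 1
      ring
    rw [h2, map_mul, map_mul, map_inv, hθ.conj]
    have h3 : φ (.sr 0) = s := by
      change s * (s * t) ^ ((0 : ZMod n).val) = s
      rw [ZMod.val_zero, pow_zero, mul_one]
    rw [h3, h]
  have hN := dsub_normal n
  have hφ1 : θ (φ 1) = θ 1 := by rw [map_one]
  have h2 : ∀ e ∈ dsub n, θ (φ e) = θ (φ 1) := by
    intro e he
    refine const_quad hη (dsub n) inferInstance (dsg.comp (dsub n).subtype) ?_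
      ⟨.sr 0, 0, Or.inr (by rw [mul_zero])⟩ ?_ ?_ ⟨e, he⟩
    · rintro ⟨x | x, hx⟩
      · change (1 : ℂˣ) * 1 = 1
        norm_num
      · change (-1 : ℂˣ) * (-1) = 1
        norm_num
    · change (-1 : ℂˣ) ≠ 1
      intro h3
      have h4 := congrArg (fun u : ℂˣ => (u : ℂ)) h3
      norm_num at h4
    · rintro ⟨x, hx⟩ hx1
      obtain ⟨i, rfl | rfl⟩ := hx
      · exact absurd rfl hx1
      · change θ (φ (.sr (2 * i))) = θ (φ 1)
        rw [h1, hφ1]
  have h3 := const_sol _ (DihedralGroup n) rfl (dsub n) hN inferInstance _ hη h2 (.sr 1) (n := .sr 2)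
    ⟨1, Or.inr (by rw [mul_one])⟩
  have h4 : (DihedralGroup.sr 1 : DihedralGroup n) * .sr 2 = .r 1 := by
    rw [DihedralGroup.sr_mul_sr]
    congr 1
    ring
  rw [h4] at h3
  have h5 : φ (.r 1) = s * t := by
    change (s * t) ^ ((1 : ZMod n).val) = s * t
    have h6 : (s * t) ^ ((1 : ZMod n).val) = (s * t) ^ 1 := by
      rw [pow_eq_pow_iff_modEq, ← ZMod.natCast_eq_natCast_iff, ← hn, ZMod.natCast_zmod_val,
        Nat.cast_one]
    rw [h6, pow_one]
  have h6 : φ (.sr 1) = t := by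
    change s * φ (.r 1) = t
    rw [h5, ← mul_assoc, hs, one_mul]
  rw [h5, h6] at h3
  exact h3

end Pool.Agent.Q7.GR
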