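import Mathlib
import Pool.Agent.Q7.GR.Inv

/-!
# Galois action on characters and orders of vanishing
-/

set_option autoImplicit false
set_option linter.unusedSectionVars false

namespace Pool.Agent.Q7.GR

open Pool.Agent.H302R2 Pool.Agent.H302R3 Pool.Agent.H302R5 Pool.Agent.H541R3.ART
  Pool.Agent.W446.AS Pool.Agent.Q7.TZ Pool.Agent.Q7.SZ

section irr

variable {G : Type} [Group G] [Finite G]

/-- field automorphisms act on the irreducible characters -/
theorem irr_gal (σ : ℂ ≃+* ℂ) {χ : G → ℂ} (hχ : χ ∈ Irr G) : (fun g => σ (χ g)) ∈ Irr G := by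
  classical
  obtain ⟨d, ρ, hρ, rfl⟩ := exists_rep hχ
  let f : (Fin d → ℂ) ≃+ (Fin d → ℂ) :=
    { toFun := fun v i => σ (v i)
      invFun := fun v i => σ.symm (v i)
      left_inv := fun v => by funext i; simp
      right_inv := fun v => by funext i; simp
      map_add' := fun v w => by funext i; simp }
  have hf : ∀ (c : ℂ) v, f (c • v) = σ c • f v := fun c v => by
    funext i
    simp [f]
  have hf' : ∀ (c : ℂ) v, f.symm (c • v) = σ.symm c • f.symm v := fun c v => by
    apply f.injective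
    rw [hf, f.apply_symm_apply, f.apply_symm_apply, σ.apply_symm_apply]
  let τ : Representation ℂ G (Fin d → ℂ) :=
    { toFun := fun g =>
        { toFun := fun v => f (ρ g (f.symm v))
          map_add' := fun v w => by rw [map_add, map_add, map_add]
          map_smul' := fun c v => by
            rw [hf', map_smul, hf, σ.apply_symm_apply]
            rfl }
      map_one' := by
        apply LinearMap.ext
        intro v
        change f (ρ 1 (f.symm v)) = v
        rw [map_one, Module.End.one_apply, f.apply_symm_apply]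
      map_mul' := fun g h => by
        apply LinearMap.ext
        intro v
        change f (ρ (g * h) (f.symm v)) = f (ρ g (f.symm (f (ρ h (f.symm v)))))
        rw [map_mul, Module.End.mul_apply, f.symm_apply_apply] }
  have hτ : ∀ g v, τ g v = f (ρ g (f.symm v)) := fun g v => rfl
  have hirr : Irred τ := by
    refine ⟨hρ.1, fun W hW => ?_⟩
    let W' : Submodule ℂ (Fin d → ℂ) :=
      { carrier := {v | f v ∈ W}
        add_mem' := fun {a b} ha hb => by
          change f (a + b) ∈ W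
          rw [map_add]
          exact W.add_mem ha hb
        zero_mem' := by
          change f 0 ∈ W
          rw [map_zero]
          exact W.zero_mem
        smul_mem' := fun c v hv => by
          change f (c • v) ∈ W
          rw [hf]
          exact W.smul_mem _ hv }
    have hW' : ∀ v, v ∈ W' ↔ f v ∈ W := fun v => Iff.rfl
    rcases hρ.2 W' (fun g v hv => by
      rw [hW'] at hv ⊢
      have h1 := hW g (f v) hv
      rw [hτ, f.symm_apply_apply] at h1
      exact h1) with h | h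
    · left
      rw [eq_bot_iff]
      intro w hw
      have h1 : f.symm w ∈ W' := by
        rw [hW', f.apply_symm_apply]
        exact hw
      rw [h, Submodule.mem_bot] at h1
      rw [Submodule.mem_bot]
      have h2 := congrArg f h1
      rwa [f.apply_symm_apply, map_zero] at h2
    · right
      rw [eq_top_iff]
      intro w _
      have h1 : f.symm w ∈ W' := by
        rw [h]
        exact Submodule.mem_top
      rw [hW', f.apply_symm_apply] at h1
      exact h1
  have hchar : (fun g => σ (ρ.character g)) = τ.character := by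
    funext g
    have htr : ∀ u : (Fin d → ℂ) →ₗ[ℂ] (Fin d → ℂ), LinearMap.trace ℂ (Fin d → ℂ) u =
        ∑ i, u (Pi.single i 1) i := by
      intro u
      rw [LinearMap.trace_eq_matrix_trace ℂ (Pi.basisFun ℂ (Fin d)), Matrix.trace]
      refine Finset.sum_congr rfl fun i _ => ?_
      rw [Matrix.diag_apply, LinearMap.toMatrix_apply, Pi.basisFun_apply, Pi.basisFun_repr]
    change σ (LinearMap.trace ℂ (Fin d → ℂ) (ρ g)) = LinearMap.trace ℂ (Fin d → ℂ) (τ g)
    rw [htr, htr, map_sum]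
    refine Finset.sum_congr rfl fun i _ => ?_
    rw [hτ]
    have h1 : f.symm (Pi.single i 1) = Pi.single i 1 := by
      rw [AddEquiv.symm_apply_eq]
      funext j
      change (Pi.single i 1 : Fin d → ℂ) j = σ ((Pi.single i 1 : Fin d → ℂ) j)
      by_cases hij : j = i
      · subst hij; simp
      · simp [hij]
    rw [h1]
    rfl
  rw [hchar]
  exact irr_of_irred hirr

end irr

section abel

variable {C : Type} [CommGroup C] [Finite C]

lemma finite_dual (C : Type) [CommGroup C] [Finite C] : Finite (C →* ℂˣ) := by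
  obtain ⟨e⟩ := CommGroup.monoidHom_mulEquiv_of_hasEnoughRootsOfUnity C ℂ
  exact Finite.of_equiv _ e.symm.toEquiv

/-- Fourier inversion -/
lemma inversion [Fintype (C →* ℂˣ)] {η : C → ℂ} {a : (C →* ℂˣ) → ℤ}
    (ha : ∀ ψ : C →* ℂˣ, ∑ᶠ c : C, η c * (((ψ c)⁻¹ : ℂˣ) : ℂ) = (a ψ : ℂ) * Nat.card C) (c : C) :
    η c = ∑ ψ : C →* ℂˣ, (a ψ : ℂ) * ((ψ c : ℂˣ) : ℂ) := by
  classical
  have : Fintype C := Fintype.ofFinite C
  have hC : (Nat.card C : ℂ) ≠ 0 := by exact_mod_cast Nat.card_pos.ne'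
  have h1 : (∑ ψ : C →* ℂˣ, (a ψ : ℂ) * ((ψ c : ℂˣ) : ℂ)) * Nat.card C = η c * Nat.card C := by
    rw [Finset.sum_mul]
    have h2 : ∀ ψ : C →* ℂˣ, (a ψ : ℂ) * ((ψ c : ℂˣ) : ℂ) * Nat.card C =
        ∑ d : C, η d * (((ψ (d * c⁻¹))⁻¹ : ℂˣ) : ℂ) := by
      intro ψ
      have h3 := ha ψ
      rw [finsum_eq_sum_of_fintype] at h3
      rw [mul_right_comm, ← h3, Finset.sum_mul]
      refine Finset.sum_congr rfl fun d _ => ?_
      rw [map_mul, map_inv, mul_inv_rev, inv_inv, Units.val_mul]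
      ring
    rw [Finset.sum_congr rfl (fun ψ _ => h2 ψ), Finset.sum_comm]
    have h3 : ∀ d : C, ∑ ψ : C →* ℂˣ, η d * (((ψ (d * c⁻¹))⁻¹ : ℂˣ) : ℂ) =
        if d = c then η c * Nat.card C else 0 := by
      intro d
      rw [← Finset.mul_sum, dual_sum]
      by_cases hd : d = c
      · rw [if_pos hd, if_pos (by rw [hd, mul_inv_cancel]), hd]
      · rw [if_neg hd, if_neg (fun h => hd (mul_inv_eq_one.mp h)), mul_zero]
    rw [Finset.sum_congr rfl (fun d _ => h3 d), Finset.sum_ite_eq' Finset.univ c,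
      if_pos (Finset.mem_univ _)]
  exact (mul_right_cancel₀ hC h1).symm

/-- the conjugate of a linear character -/
noncomputable def galL {H : Type} [Group H] (σ : ℂ ≃+* ℂ) (ψ : H →* ℂˣ) : H →* ℂˣ :=
  (Units.map (σ : ℂ →* ℂ)).comp ψ

lemma galL_val {H : Type} [Group H] (σ : ℂ ≃+* ℂ) (ψ : H →* ℂˣ) (h : H) :
    ((galL σ ψ h : ℂˣ) : ℂ) = σ ((ψ h : ℂˣ) : ℂ) := rfl

lemma galL_sq {H : Type} [Group H] (σ : ℂ ≃+* ℂ) {ψ : H →* ℂˣ} (h : ∀ x, ψ x * ψ x = 1) :
    galL σ ψ = ψ := by
  ext x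
  rw [galL_val]
  have h1 : ((ψ x : ℂˣ) : ℂ) * ((ψ x : ℂˣ) : ℂ) = 1 := by
    rw [← Units.val_mul, h x, Units.val_one]
  rcases mul_self_eq_one_iff.mp h1 with h2 | h2
  · rw [h2, map_one]
  · rw [h2, map_neg, map_one]

/-- a real function on a cyclic group of small degree, whose support on the dual group is stable
under field automorphisms, has Galois invariant multiplicities -/
theorem mult_gal [Fintype (C →* ℂˣ)] {a : (C →* ℂˣ) → ℤ} (h0 : ∀ ψ, 0 ≤ a ψ)
    (hreal : ∀ ψ, a ψ⁻¹ = a ψ) (hsum : ∑ ψ : C →* ℂˣ, a ψ ≤ 5) {σ : ℂ ≃+* ℂ}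
    (hsupp : ∀ ψ, a ψ = 0 ↔ a (galL σ ψ) = 0) (ψ : C →* ℂˣ) : a (galL σ ψ) = a ψ := by
  classical
  by_contra hne
  set φ := galL σ ψ with hφ
  have hpos : 1 ≤ a ψ := by
    have h1 := h0 ψ
    by_contra h2
    have h3 : a ψ = 0 := by omega
    have h4 := (hsupp ψ).mp h3
    exact hne (by rw [← hφ] at h4; omega)
  have hpos' : 1 ≤ a φ := by
    have h1 := h0 φ
    by_contra h2
    have h3 : a φ = 0 := by omega
    have h4 := (hsupp ψ).mpr h3
    exact hne (by omega)
  have e1 : ψ ≠ φ := fun h => hne (by rw [← h])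
  have hinvφ : galL σ ψ⁻¹ = φ⁻¹ := by
    ext x
    rw [galL_val, MonoidHom.inv_apply, MonoidHom.inv_apply, Units.val_inv_eq_inv_val, map_inv₀,
      Units.val_inv_eq_inv_val, hφ, galL_val]
  have e2 : ψ ≠ ψ⁻¹ := by
    intro h
    apply hne
    have h1 : ∀ x, ψ x * ψ x = 1 := by
      intro x
      have h2 : ψ x = (ψ x)⁻¹ := DFunLike.congr_fun h x
      nth_rw 2 [h2]
      exact mul_inv_cancel _
    rw [hφ, galL_sq σ h1]
  have hinj : ∀ α β : C →* ℂˣ, galL σ α = galL σ β → α = β := by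
    intro α β h
    ext x
    have h1 := congrArg (fun f : C →* ℂˣ => ((f x : ℂˣ) : ℂ)) h
    simp only [galL_val] at h1
    exact σ.injective h1
  have e3 : φ ≠ φ⁻¹ := by
    intro h
    apply e2
    apply hinj
    rw [hinvφ, ← hφ]
    exact h
  have e4 : ψ ≠ φ⁻¹ := by
    intro h
    apply hne
    rw [← hreal φ, ← h]
  have e5 : ψ⁻¹ ≠ φ := fun h => by
    apply hne
    rw [← h, hreal]
  have e6 : ψ⁻¹ ≠ φ⁻¹ := fun h => by
    apply e1
    ext x
    have h2 : (ψ x)⁻¹ = (φ x)⁻¹ := DFunLike.congr_fun h x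
    rw [inv_injective h2]
  have h1 : ∑ χ ∈ ({ψ, φ, ψ⁻¹, φ⁻¹} : Finset (C →* ℂˣ)), a χ ≤ ∑ χ : C →* ℂˣ, a χ :=
    Finset.sum_le_sum_of_subset_of_nonneg (Finset.subset_univ _) fun χ _ _ => h0 χ
  rw [Finset.sum_insert (by simp [e1, e2, e4]), Finset.sum_insert (by simp [e5.symm, e3]),
    Finset.sum_insert (by simp [e6]), Finset.sum_singleton, hreal, hreal] at h1
  omega

end abel

section main

variable {G : Type} [Group G] [Finite G]

/-- **Rationality**: if the order of `L(E/M, s)` is at most five and the nonvanishing of the twists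
over the fields `M ^ g` by characters of `Gal(M / M ^ g)` is Galois invariant, the function `theta`
is invariant under all field automorphisms. -/
theorem theta_gal {A : TwistData G 1} (F : FunEq A) {r : ℕ} (hr5 : r ≤ 5)
    (hr : meromorphicOrderAt (A.Lin ⊥ 1) 1 = (r : WithTop ℤ)) (σ : ℂ ≃+* ℂ)
    (hsh : ∀ (g : G) (ψ : Subgroup.zpowers g →* ℂˣ),
      meromorphicOrderAt (A.Lin (Subgroup.zpowers g) ψ) 1 = 0 ↔
        meromorphicOrderAt (A.Lin (Subgroup.zpowers g) (galL σ ψ)) 1 = 0) :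
    (∀ (g : G) (ψ : Subgroup.zpowers g →* ℂˣ),
      meromorphicOrderAt (A.Lin (Subgroup.zpowers g) (galL σ ψ)) 1 =
        meromorphicOrderAt (A.Lin (Subgroup.zpowers g) ψ) 1) ∧
    ∀ g, σ ((theta A.ord : G → ℂ) g) = (theta A.ord : G → ℂ) g := by
  classical
  have hθ := A.isSol
  have h1 := A.theta_one hr
  have key : ∀ g : G, (∀ ψ : Subgroup.zpowers g →* ℂˣ,
      meromorphicOrderAt (A.Lin (Subgroup.zpowers g) (galL σ ψ)) 1 =
        meromorphicOrderAt (A.Lin (Subgroup.zpowers g) ψ) 1) ∧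
      σ ((theta A.ord : G → ℂ) g) = (theta A.ord : G → ℂ) g := by
    intro g
    set C := Subgroup.zpowers g with hC
    have hcC : ∀ a b : C, a * b = b * a := zpowers_comm g
    let _ : CommGroup C := { (inferInstance : Group C) with mul_comm := hcC }
    have := finite_dual C
    have : Fintype (C →* ℂˣ) := Fintype.ofFinite _
    have : Fintype C := Fintype.ofFinite C
    choose a ha1 ha2 using fun ψ : C →* ℂˣ => A.order_mult C ψ
    have hinv := fun c : C => inversion (η := fun c : C => (theta A.ord : G → ℂ) c) ha2 c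
    have h0 : ∀ ψ, 0 ≤ a ψ := by
      intro ψ
      have h2 := A.hol C ψ (sol_of_comm hcC)
      rw [ha1] at h2
      exact_mod_cast h2
    have hreal : ∀ ψ, a ψ⁻¹ = a ψ := by
      intro ψ
      have h2 := ha2 ψ⁻¹
      have h3 := ha2 ψ
      rw [finsum_eq_sum_of_fintype] at h2 h3
      have h4 : ∑ c : C, (theta A.ord : G → ℂ) c * (((ψ⁻¹ c)⁻¹ : ℂˣ) : ℂ) =
          ∑ c : C, (theta A.ord : G → ℂ) c * (((ψ c)⁻¹ : ℂˣ) : ℂ) := by
        rw [← Equiv.sum_comp (Equiv.inv C)]
        refine Finset.sum_congr rfl fun c _ => ?_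
        rw [Equiv.inv_apply, Subgroup.coe_inv, F.theta_real, MonoidHom.inv_apply, map_inv, inv_inv]
      rw [h4, h3] at h2
      have h5 : (Nat.card C : ℂ) ≠ 0 := card_ne
      exact_mod_cast (mul_right_cancel₀ h5 h2).symm
    have hsum : ∑ ψ : C →* ℂˣ, a ψ ≤ 5 := by
      have h2 := hinv 1
      have h3 : (theta A.ord : G → ℂ) ((1 : C) : G) = r := h1
      rw [h3] at h2
      have h4 : ((∑ ψ : C →* ℂˣ, a ψ : ℤ) : ℂ) = ((r : ℤ) : ℂ) := by
        push_cast
        rw [h2]
        refine Finset.sum_congr rfl fun ψ _ => ?_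
        rw [map_one, Units.val_one, mul_one]
      have h5 : ∑ ψ : C →* ℂˣ, a ψ = (r : ℤ) := by exact_mod_cast h4
      rw [h5]
      exact_mod_cast hr5
    have hsupp : ∀ ψ, a ψ = 0 ↔ a (galL σ ψ) = 0 := by
      intro ψ
      have h2 : meromorphicOrderAt (A.Lin C ψ) 1 = 0 ↔
        meromorphicOrderAt (A.Lin C (galL σ ψ)) 1 = 0 := hsh g ψ
      rw [ha1, ha1] at h2
      constructor
      · intro h3
        exact_mod_cast h2.mp (by rw [h3]; rfl)
      · intro h3
        exact_mod_cast h2.mpr (by rw [h3]; rfl)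
    have hgal := mult_gal h0 hreal hsum hsupp
    refine ⟨fun ψ => by rw [ha1, ha1, hgal], ?_⟩
    have h2 := hinv ⟨g, Subgroup.mem_zpowers g⟩
    have h3 : (theta A.ord : G → ℂ) g =
        ∑ ψ : C →* ℂˣ, (a ψ : ℂ) * ((ψ ⟨g, Subgroup.mem_zpowers g⟩ : ℂˣ) : ℂ) := h2
    rw [h3, map_sum]
    have hbij : Function.Bijective (galL σ : (C →* ℂˣ) → (C →* ℂˣ)) := by
      rw [Fintype.bijective_iff_injective_and_card]
      refine ⟨?_, rfl⟩
      intro α β h
      ext x
      have h1 := congrArg (fun f : C →* ℂˣ => ((f x : ℂˣ) : ℂ)) h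
      simp only [galL_val] at h1
      exact σ.injective h1
    rw [← (Equiv.ofBijective _ hbij).sum_comp (fun ψ : C →* ℂˣ =>
      (a ψ : ℂ) * ((ψ ⟨g, Subgroup.mem_zpowers g⟩ : ℂˣ) : ℂ))]
    refine Finset.sum_congr rfl fun ψ _ => ?_
    rw [map_mul, map_intCast, Equiv.ofBijective_apply, hgal, galL_val]
  exact ⟨fun g => (key g).1, fun g => (key g).2⟩

/-- the orders of vanishing are Galois invariant -/
lemma ord_gal {A : TwistData G 1} {σ : ℂ ≃+* ℂ}
    (h : ∀ g, σ ((theta A.ord : G → ℂ) g) = (theta A.ord : G → ℂ) g) {χ : G → ℂ} (hχ : χ ∈ Irr G) :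
    A.ord (fun g => σ (χ g)) = A.ord χ := by
  classical
  have : Fintype G := Fintype.ofFinite G
  have h1 := pr_theta A.ord (irr_gal σ hχ)
  have h2 := pr_theta A.ord hχ
  rw [pr_eq] at h1 h2
  have h3 : σ ((Nat.card G : ℂ)⁻¹ * ∑ g : G, (theta A.ord : G → ℂ) g * χ g⁻¹) =
      (Nat.card G : ℂ)⁻¹ * ∑ g : G, (theta A.ord : G → ℂ) g * σ (χ g⁻¹) := by
    rw [map_mul, map_inv₀, map_natCast, map_sum]
    congr 1
    refine Finset.sum_congr rfl fun g _ => ?_
    rw [map_mul, h]
  rw [h2, map_intCast, h1] at h3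
  exact_mod_cast h3.symm

/-- the sum of the squares of the orders -/
lemma sum_sq_ord {s₀ : ℂ} (A : TwistData G s₀) {r : ℕ}
    (hr : meromorphicOrderAt (A.Lin ⊥ 1) s₀ = (r : WithTop ℤ)) :
    ∑ χ ∈ irrF G, A.ord χ ^ 2 ≤ (r : ℤ) ^ 2 := by
  classical
  have : Fintype G := Fintype.ofFinite G
  have hθ := A.isSol
  have h1 := A.theta_one hr
  have hG : (0 : ℝ) < Nat.card G := by exact_mod_cast Nat.card_pos
  have e1 : ∑ g : G, (theta A.ord : G → ℂ) g * theta A.ord g⁻¹ =
      (∑ χ ∈ irrF G, (A.ord χ : ℂ) ^ 2) * Nat.card G := by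
    have h2 : ∀ g : G, (theta A.ord : G → ℂ) g * theta A.ord g⁻¹ =
        ∑ χ ∈ irrF G, (A.ord χ : ℂ) * (theta A.ord g * χ g⁻¹) := by
      intro g
      conv_lhs => rw [theta.eq_1 (G := G) A.ord g⁻¹]
      rw [Finset.mul_sum]
      refine Finset.sum_congr rfl fun χ _ => by ring
    rw [Finset.sum_congr rfl (fun g _ => h2 g), Finset.sum_comm, Finset.sum_mul]
    refine Finset.sum_congr rfl fun χ hχ => ?_
    rw [← Finset.mul_sum, theta_pair A.ord (mem_irrF.mp hχ)]
    ring
  have e2 : ‖∑ g : G, (theta A.ord : G → ℂ) g * theta A.ord g⁻¹‖ ≤ (r : ℝ) ^ 2 * Nat.card G := by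
    refine (norm_sum_le _ _).trans ?_
    have h2 : ∀ g : G, ‖(theta A.ord : G → ℂ) g * theta A.ord g⁻¹‖ ≤ (r : ℝ) ^ 2 := by
      intro g
      have h3 := hθ.norm_le g
      have h4 := hθ.norm_le g⁻¹
      rw [h1, Complex.natCast_re] at h3 h4
      rw [norm_mul, sq]
      exact mul_le_mul h3 h4 (norm_nonneg _) (Nat.cast_nonneg _)
    refine (Finset.sum_le_sum fun g _ => h2 g).trans ?_
    rw [Finset.sum_const, Finset.card_univ, nsmul_eq_mul, ← Nat.card_eq_fintype_card, mul_comm]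
  rw [e1] at e2
  have h2 : (∑ χ ∈ irrF G, (A.ord χ : ℂ) ^ 2) * (Nat.card G : ℂ) =
      (((((∑ χ ∈ irrF G, A.ord χ ^ 2 : ℤ) : ℝ) * (Nat.card G : ℝ)) : ℝ) : ℂ) := by
    push_cast
    ring
  rw [h2, Complex.norm_real, Real.norm_eq_abs] at e2
  have h3 := (le_abs_self _).trans e2
  have h4 := le_of_mul_le_mul_right h3 hG
  exact_mod_cast h4

end main

end Pool.Agent.Q7.GR
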