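import Mathlib
import Pool.Agent.Q7.GR.Bsd

/-!
# Minimal order of vanishing
-/

set_option autoImplicit false
set_option linter.unusedSectionVars false

namespace Pool.Agent.Q7.GR

open Pool.Agent.H302R2 Pool.Agent.H302R3 Pool.Agent.H302R5 Pool.Agent.H541R3.ART
  Pool.Agent.W446.AS Pool.Agent.Q7.TZ Pool.Agent.Q7.SZ Filter Topology

variable {G : Type} [Group G] [Finite G]

/-- the order of a real character with root number `-1` is odd -/
lemma ord_odd {A : TwistData G 1} (F : FunEq A) {χ : G → ℂ} (hχ : χ ∈ Irr G)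
    (hreal' : ∀ g, χ g⁻¹ = χ g) (hW : F.W χ = -1) : Odd (A.ord χ) := by
  have hreal : (fun g => χ g⁻¹) = χ := funext hreal'
  have hfe := F.fe χ hχ
  rw [hreal, hW] at hfe
  set f : ℂ → ℂ := fun s => F.gam χ s * A.L χ s with hf
  have hfm : MeromorphicAt f 1 := ((F.gam_an χ hχ).1.meromorphicAt).mul (A.mero χ hχ).1
  have hord : meromorphicOrderAt f 1 = (A.ord χ : WithTop ℤ) := by
    rw [A.coe_ord hχ]
    exact order_gam (F.gam_an χ hχ).1 (F.gam_an χ hχ).2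
  obtain ⟨g, hg, hg0, hfg⟩ := (meromorphicOrderAt_eq_int_iff hfm).mp hord
  set n := A.ord χ with hn
  -- reflection
  have hcont : Tendsto (fun s : ℂ => 2 - s) (𝓝 1) (𝓝 1) := by
    have h1 : ContinuousAt (fun s : ℂ => 2 - s) 1 := by fun_prop
    have h2 : (2 : ℂ) - 1 = 1 := by norm_num
    have h3 := h1.tendsto
    rw [h2] at h3
    exact h3
  have hcont' : Tendsto (fun s : ℂ => 2 - s) (𝓝[≠] 1) (𝓝[≠] 1) := by
    rw [tendsto_nhdsWithin_iff]
    refine ⟨hcont.mono_left nhdsWithin_le_nhds, ?_⟩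
    filter_upwards [self_mem_nhdsWithin] with s h1
    intro h2
    apply h1
    have h3 : (2 : ℂ) - s = 1 := h2
    change s = 1
    linear_combination -h3
  have hrel : ∀ᶠ s in 𝓝[≠] (1 : ℂ), g s = -((-1) ^ n * g (2 - s)) := by
    filter_upwards [hfe, hfg, hcont'.eventually hfg, self_mem_nhdsWithin] with s h1 h2 h3 h4
    have h5 : f s = -f (2 - s) := by
      rw [neg_one_mul] at h1
      exact h1
    rw [h2, h3, smul_eq_mul, smul_eq_mul] at h5
    have h6 : s - 1 ≠ 0 := sub_ne_zero.mpr h4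
    have h7 : (2 - s - 1 : ℂ) = (-1) * (s - 1) := by ring
    rw [h7, mul_zpow, mul_assoc, mul_left_comm, ← mul_neg] at h5
    exact mul_left_cancel₀ (zpow_ne_zero n h6) h5
  have hlim1 : Tendsto g (𝓝[≠] 1) (𝓝 (g 1)) := hg.continuousAt.tendsto.mono_left nhdsWithin_le_nhds
  have hlim2 : Tendsto (fun s => -((-1) ^ n * g (2 - s))) (𝓝[≠] 1) (𝓝 (-((-1) ^ n * g 1))) := by
    refine Tendsto.neg (Tendsto.const_mul _ ?_)
    exact hg.continuousAt.tendsto.comp (hcont.mono_left nhdsWithin_le_nhds)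
  have hlim3 : Tendsto g (𝓝[≠] 1) (𝓝 (-((-1) ^ n * g 1))) := by
    refine hlim2.congr' ?_
    filter_upwards [hrel] with s h1
    exact h1.symm
  have heq := tendsto_nhds_unique hlim1 hlim3
  by_contra hodd
  rw [Int.not_odd_iff_even] at hodd
  rw [hodd.neg_one_zpow] at heq
  apply hg0
  have h2 : (2 : ℂ) * g 1 = 0 := by linear_combination heq
  exact (mul_eq_zero.mp h2).resolve_left two_ne_zero

/-- multiplicities of the trivial character of a normal subgroup -/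
lemma mult_normal {N : Subgroup G} [hN : N.Normal] {χ : G → ℂ} (hχ : χ ∈ Irr G) {m : ℕ}
    (hm : ∑ᶠ h : N, χ h * ((((1 : N →* ℂˣ) h)⁻¹ : ℂˣ) : ℂ) = (m : ℂ) * (Nat.card N : ℂ)) :
    ((∀ x ∈ N, χ x = χ 1) ∧ (m : ℂ) = χ 1) ∨ ((∃ x ∈ N, χ x ≠ χ 1) ∧ m = 0) := by
  classical
  have : Fintype N := Fintype.ofFinite N
  have hc : (Nat.card N : ℂ) ≠ 0 := card_ne
  have h1 : ∑ h : N, χ h = (m : ℂ) * (Nat.card N : ℂ) := by
    rw [← hm, finsum_eq_sum_of_fintype]
    exact Finset.sum_congr rfl fun h _ => by simp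
  by_cases h : ∀ x ∈ N, χ x = χ 1
  · left
    refine ⟨h, ?_⟩
    have h2 : ∑ x : N, χ x = ∑ _x : N, χ 1 := Finset.sum_congr rfl fun x _ => h _ x.2
    rw [h2, Finset.sum_const, Finset.card_univ,
      nsmul_eq_mul, ← Nat.card_eq_fintype_card, mul_comm] at h1
    exact (mul_right_cancel₀ hc h1).symm
  · right
    push Not at h
    refine ⟨h, ?_⟩
    obtain ⟨d, ρ, hρ, rfl⟩ := exists_rep hχ
    rcases hρ.normal_dich N with h3 | h3
    · exfalso
      obtain ⟨x, hx, hx1⟩ := h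
      apply hx1
      change LinearMap.trace ℂ _ (ρ x) = LinearMap.trace ℂ _ (ρ 1)
      rw [h3 x hx, map_one ρ]
    · have h4 := h3 1
      simp only [one_mul] at h4
      rw [h4] at h1
      have h5 : (m : ℂ) = 0 := by
        rcases mul_eq_zero.mp h1.symm with h6 | h6
        · exact h6
        · exact absurd h6 hc
      exact_mod_cast h5

/-- **Minimal order** -/
theorem minimal {A : TwistData G 1} (F : FunEq A) {N : Subgroup G} [hN : N.Normal]
    (hc : Group.IsSolvable N ∨ ∀ g : G, ∃ p k : ℕ, p.Prime ∧ g ^ p ^ k ∈ N)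
    (hol : ∀ χ ∈ Irr G, (∀ x ∈ N, χ x = χ 1) → 0 ≤ meromorphicOrderAt (A.L χ) 1)
    (S : Finset (G → ℂ)) (hS : ∀ χ ∈ S, χ ∈ Irr G ∧ (∀ x ∈ N, χ x = χ 1) ∧
      (∀ g, χ g⁻¹ = χ g) ∧ F.W χ = -1) {r : ℤ}
    (hr : meromorphicOrderAt (A.Lin ⊥ 1) 1 = (r : WithTop ℤ))
    (hmin : (r : ℝ) ≤ ∑ χ ∈ S, (χ 1).re) :
    (r : ℂ) = ∑ χ ∈ S, χ 1 ∧ (∀ χ ∈ S, A.ord χ = 1) ∧ ∀ χ ∈ Irr G, χ ∉ S → A.ord χ = 0 := by
  classical
  have : Fintype G := Fintype.ofFinite G
  have : Fintype N := Fintype.ofFinite N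
  have hθ := A.isSol
  have h1 := theta_one_int A hr
  have hcN : (0 : ℝ) < Nat.card N := by exact_mod_cast Nat.card_pos
  -- the degrees
  have hdeg : ∀ χ ∈ Irr G, ∃ d : ℕ, 0 < d ∧ χ 1 = d := fun χ hχ => irr_deg_pos hχ
  choose! dg hdg0 hdg using hdeg
  -- the order over the fixed field of `N`
  choose! m hm using fun χ (hχ : χ ∈ Irr G) => exists_mult hχ N 1
  have hord := A.order_Lin N 1 m hm
  obtain ⟨k, hk1, hk2⟩ := A.order_one' N
  rw [hord] at hk1
  have hk3 : ∑ χ ∈ irrF G, (m χ : ℤ) * A.ord χ = k := by exact_mod_cast hk1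
  have hkr : k ≤ r := by
    have h2 : ‖(k : ℂ) * Nat.card N‖ ≤ (r : ℝ) * Nat.card N := by
      rw [← hk2, finsum_eq_sum_of_fintype]
      refine (norm_sum_le _ _).trans ?_
      have h3 : ∀ x : N, ‖(theta A.ord : G → ℂ) x‖ ≤ r := by
        intro x
        have h4 := hθ.norm_le (x : G)
        rw [h1] at h4
        simpa using h4
      refine (Finset.sum_le_sum fun x _ => h3 x).trans ?_
      rw [Finset.sum_const, Finset.card_univ, nsmul_eq_mul, ← Nat.card_eq_fintype_card, mul_comm]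
    rw [norm_mul, Complex.norm_natCast, Complex.norm_intCast] at h2
    have h3 := le_of_mul_le_mul_right h2 hcN
    have h4 : (k : ℝ) ≤ r := (le_abs_self _).trans h3
    exact_mod_cast h4
  have hnn : ∀ χ ∈ Irr G, (∀ x ∈ N, χ x = χ 1) → 0 ≤ A.ord χ := by
    intro χ hχ h
    have h2 := hol χ hχ h
    rw [← A.coe_ord hχ] at h2
    exact_mod_cast h2
  have hmd : ∀ χ ∈ Irr G, (∀ x ∈ N, χ x = χ 1) → m χ = dg χ := by
    intro χ hχ h
    rcases mult_normal hχ (hm χ hχ) with h2 | h2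
    · have h3 := h2.2
      rw [hdg χ hχ] at h3
      exact_mod_cast h3
    · obtain ⟨x, hx, hx1⟩ := h2.1
      exact absurd (h x hx) hx1
  have hm0 : ∀ χ ∈ Irr G, ¬ (∀ x ∈ N, χ x = χ 1) → m χ = 0 := by
    intro χ hχ h
    rcases mult_normal hχ (hm χ hχ) with h2 | h2
    · exact absurd h2.1 h
    · exact h2.2
  have hterm : ∀ χ ∈ irrF G, 0 ≤ (m χ : ℤ) * A.ord χ := by
    intro χ hχ
    rw [mem_irrF] at hχ
    by_cases h : ∀ x ∈ N, χ x = χ 1
    · exact mul_nonneg (by positivity) (hnn χ hχ h)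
    · rw [hm0 χ hχ h]
      simp
  have hSF : S ⊆ irrF G := fun χ hχ => mem_irrF.mpr (hS χ hχ).1
  have hSord : ∀ χ ∈ S, 1 ≤ A.ord χ := by
    intro χ hχ
    obtain ⟨h2, h3, h4, h5⟩ := hS χ hχ
    have h6 := ord_odd F h2 h4 h5
    have h7 := hnn χ h2 h3
    rcases h6 with ⟨j, hj⟩
    omega
  have hSd : (r : ℤ) ≤ ∑ χ ∈ S, (dg χ : ℤ) := by
    have h2 : (r : ℝ) ≤ ((∑ χ ∈ S, (dg χ : ℤ) : ℤ) : ℝ) := by
      refine hmin.trans_eq ?_
      push_cast
      refine Finset.sum_congr rfl fun χ hχ => ?_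
      rw [hdg χ (hS χ hχ).1, Complex.natCast_re]
    exact_mod_cast h2
  have hSsum : ∑ χ ∈ S, (dg χ : ℤ) ≤ ∑ χ ∈ S, (m χ : ℤ) * A.ord χ := by
    refine Finset.sum_le_sum fun χ hχ => ?_
    rw [hmd χ (hS χ hχ).1 (hS χ hχ).2.1]
    have h2 := hSord χ hχ
    have h3 : (0 : ℤ) ≤ dg χ := by positivity
    nlinarith
  have hsplit : ∑ χ ∈ irrF G, (m χ : ℤ) * A.ord χ =
      ∑ χ ∈ S, (m χ : ℤ) * A.ord χ + ∑ χ ∈ irrF G \ S, (m χ : ℤ) * A.ord χ := by
    rw [add_comm, Finset.sum_sdiff hSF]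
  have hrest : 0 ≤ ∑ χ ∈ irrF G \ S, (m χ : ℤ) * A.ord χ :=
    Finset.sum_nonneg fun χ hχ => hterm χ (Finset.mem_sdiff.mp hχ).1
  have hk : k = r := by omega
  have hrS : r = ∑ χ ∈ S, (dg χ : ℤ) := by omega
  have hrest0 : ∑ χ ∈ irrF G \ S, (m χ : ℤ) * A.ord χ = 0 := by omega
  have hSeq : ∑ χ ∈ S, (dg χ : ℤ) = ∑ χ ∈ S, (m χ : ℤ) * A.ord χ := by omega
  -- no growth
  have hng := no_growth A N hc hr (by
    rw [hord, hk3, hk])
  refine ⟨?_, ?_, ?_⟩
  · rw [hrS]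
    push_cast
    exact Finset.sum_congr rfl fun χ hχ => (hdg χ (hS χ hχ).1).symm
  · intro χ hχ
    have h2 : ∀ ψ ∈ S, (dg ψ : ℤ) ≤ (m ψ : ℤ) * A.ord ψ := by
      intro ψ hψ
      rw [hmd ψ (hS ψ hψ).1 (hS ψ hψ).2.1]
      have h2 := hSord ψ hψ
      have h3 : (0 : ℤ) ≤ dg ψ := by positivity
      nlinarith
    have h3 := (Finset.sum_eq_sum_iff_of_le h2).mp hSeq χ hχ
    rw [hmd χ (hS χ hχ).1 (hS χ hχ).2.1] at h3
    have h4 : (0 : ℤ) < dg χ := by exact_mod_cast hdg0 χ (hS χ hχ).1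
    have h5 : (dg χ : ℤ) * (A.ord χ - 1) = 0 := by linear_combination -h3
    rcases mul_eq_zero.mp h5 with h6 | h6
    · omega
    · omega
  · intro χ hχ hχS
    by_cases h : ∀ x ∈ N, χ x = χ 1
    · have h2 := (Finset.sum_eq_zero_iff_of_nonneg (fun ψ hψ =>
        hterm ψ (Finset.mem_sdiff.mp hψ).1)).mp hrest0 χ
        (Finset.mem_sdiff.mpr ⟨mem_irrF.mpr hχ, hχS⟩)
      rw [hmd χ hχ h] at h2
      have h4 : (0 : ℤ) < dg χ := by exact_mod_cast hdg0 χ hχ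
      rcases mul_eq_zero.mp h2 with h6 | h6
      · omega
      · exact h6
    · by_contra hne
      apply h
      refine const_pr N (θ := theta A.ord) (fun x n hn => hng x n hn) hχ ?_
      rw [pr_theta A.ord hχ]
      exact_mod_cast hne

section alg

variable {V : Type} [AddCommGroup V] [Module ℂ V] [FiniteDimensional ℂ V]
  (ρ : Representation ℂ G V)

lemma char_virt : Virt ρ.character := char_mem _ ρ rfl

/-- multiplicities are natural numbers -/
lemma pr_nat {χ : G → ℂ} (hχ : χ ∈ Irr G) : ∃ m : ℕ, pr ρ.character χ = m := by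
  classical
  have : Fintype G := Fintype.ofFinite G
  obtain ⟨d, σ, -, rfl⟩ := exists_rep hχ
  have : Invertible (Nat.card G : ℂ) := invertibleOfNonzero card_ne
  have h := Representation.card_inv_mul_sum_char_mul_char_eq_finrank σ ρ
  rw [← pr_eq] at h
  exact ⟨_, h⟩

/-- the dimension -/
lemma dim_eq : (Module.finrank ℂ V : ℂ) = ∑ χ ∈ irrF G, pr ρ.character χ * χ 1 := by
  rw [← (char_virt ρ).expand 1, Representation.char_one]

/-- the dimension of the invariants -/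
lemma rk_eq (H : Subgroup G) (m : (G → ℂ) → ℕ)
    (hm : ∀ χ ∈ Irr G, ∑ᶠ h : H, χ h * ((((1 : H →* ℂˣ) h)⁻¹ : ℂˣ) : ℂ) =
      (m χ : ℂ) * (Nat.card H : ℂ)) :
    (rk ρ H : ℂ) = ∑ χ ∈ irrF G, pr ρ.character χ * m χ := by
  classical
  have : Fintype H := Fintype.ofFinite H
  have hH : (Nat.card H : ℂ) ≠ 0 := card_ne
  have : Invertible (Nat.card H : ℂ) := invertibleOfNonzero hH
  have h1 := Representation.card_inv_mul_sum_char_eq_finrank (ρ.comp H.subtype)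
  unfold rk
  rw [← h1]
  have h2 : ∀ h : H, Representation.character (ρ.comp H.subtype) h =
      ∑ χ ∈ irrF G, pr ρ.character χ * χ h := by
    intro h
    rw [← (char_virt ρ).expand (h : G)]
    rfl
  rw [Finset.sum_congr rfl (fun h _ => h2 h), Finset.sum_comm, Finset.mul_sum]
  refine Finset.sum_congr rfl fun χ hχ => ?_
  rw [← Finset.mul_sum]
  have h3 := hm χ (mem_irrF.mp hχ)
  rw [finsum_eq_sum_of_fintype] at h3
  have h4 : ∑ h : H, χ h = (m χ : ℂ) * (Nat.card H : ℂ) := by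
    rw [← h3]
    exact Finset.sum_congr rfl fun h _ => by simp
  rw [h4]
  field_simp

end alg

/-- **Minimal order and the dimension** -/
theorem minimal_dim {A : TwistData G 1} {S : Finset (G → ℂ)} (hS : ∀ χ ∈ S, χ ∈ Irr G) {r : ℤ}
    (hr : (r : ℂ) = ∑ χ ∈ S, χ 1) (h1 : ∀ χ ∈ S, A.ord χ = 1)
    (h0 : ∀ χ ∈ Irr G, χ ∉ S → A.ord χ = 0)
    {V : Type} [AddCommGroup V] [Module ℂ V] [FiniteDimensional ℂ V]
    (ρ : Representation ℂ G V) (hocc : ∀ χ ∈ S, pr ρ.character χ ≠ 0) :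
    (∀ χ ∈ Irr G, ∃ m : ℕ, pr ρ.character χ = m ∧ A.ord χ ≤ m) ∧
    (∀ H : Subgroup G, meromorphicOrderAt (A.Lin H 1) 1 ≤ ((rk ρ H : ℤ) : WithTop ℤ)) ∧
    ((∀ χ ∈ Irr G, pr ρ.character χ = A.ord χ) ↔ (Module.finrank ℂ V : ℤ) ≤ r) ∧
    ((∀ H, RankHolds A ρ H) ↔ (Module.finrank ℂ V : ℤ) ≤ r) := by
  classical
  have : Fintype G := Fintype.ofFinite G
  choose! mu hmu using fun χ (hχ : χ ∈ Irr G) => pr_nat ρ hχ
  have hle : ∀ χ ∈ Irr G, A.ord χ ≤ mu χ := by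
    intro χ hχ
    by_cases h : χ ∈ S
    · rw [h1 χ h]
      have h2 := hocc χ h
      rw [hmu χ hχ] at h2
      have h3 : mu χ ≠ 0 := by exact_mod_cast h2
      exact_mod_cast Nat.one_le_iff_ne_zero.mpr h3
    · rw [h0 χ hχ h]
      positivity
  have hrk : ∀ H : Subgroup G, ∃ k : ℤ, meromorphicOrderAt (A.Lin H 1) 1 = (k : WithTop ℤ) ∧
      k ≤ rk ρ H := by
    intro H
    choose! m hm using fun χ (hχ : χ ∈ Irr G) => exists_mult hχ H 1
    refine ⟨_, A.order_Lin H 1 m hm, ?_⟩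
    have h2 := rk_eq ρ H m hm
    have h3 : (rk ρ H : ℤ) = ∑ χ ∈ irrF G, (mu χ : ℤ) * m χ := by
      have h4 : (rk ρ H : ℂ) = ((∑ χ ∈ irrF G, (mu χ : ℤ) * m χ : ℤ) : ℂ) := by
        rw [h2]
        push_cast
        exact Finset.sum_congr rfl fun χ hχ => by rw [hmu χ (mem_irrF.mp hχ)]
      exact_mod_cast h4
    rw [h3]
    refine Finset.sum_le_sum fun χ hχ => ?_
    have h5 := hle χ (mem_irrF.mp hχ)
    have h6 : (0 : ℤ) ≤ m χ := by positivity
    nlinarith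
  have hdeg : ∀ χ ∈ Irr G, ∃ d : ℕ, 0 < d ∧ χ 1 = d := fun χ hχ => irr_deg_pos hχ
  choose! dg hdg0 hdg using hdeg
  have hdim : (Module.finrank ℂ V : ℤ) = ∑ χ ∈ irrF G, (mu χ : ℤ) * dg χ := by
    have h2 := dim_eq ρ
    have h4 : (Module.finrank ℂ V : ℂ) = ((∑ χ ∈ irrF G, (mu χ : ℤ) * dg χ : ℤ) : ℂ) := by
      rw [h2]
      push_cast
      exact Finset.sum_congr rfl fun χ hχ => by
        rw [hmu χ (mem_irrF.mp hχ), hdg χ (mem_irrF.mp hχ)]
    exact_mod_cast h4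
  have hrd : r = ∑ χ ∈ irrF G, A.ord χ * dg χ := by
    have hSF : S ⊆ irrF G := fun χ hχ => mem_irrF.mpr (hS χ hχ)
    have h2 : ∑ χ ∈ irrF G, A.ord χ * dg χ = ∑ χ ∈ S, (dg χ : ℤ) := by
      rw [← Finset.sum_sdiff hSF, Finset.sum_eq_zero, zero_add]
      · exact Finset.sum_congr rfl fun χ hχ => by rw [h1 χ hχ, one_mul]
      · intro χ hχ
        rw [Finset.mem_sdiff] at hχ
        rw [h0 χ (mem_irrF.mp hχ.1) hχ.2, zero_mul]
    rw [h2]
    have h3 : (r : ℂ) = ((∑ χ ∈ S, (dg χ : ℤ) : ℤ) : ℂ) := by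
      rw [hr]
      push_cast
      exact Finset.sum_congr rfl fun χ hχ => hdg χ (hS χ hχ)
    exact_mod_cast h3
  have hA : (∀ χ ∈ Irr G, pr ρ.character χ = A.ord χ) ↔ (Module.finrank ℂ V : ℤ) ≤ r := by
    constructor
    · intro h
      rw [hdim, hrd]
      refine (Finset.sum_congr rfl fun χ hχ => ?_).le
      have h2 := h χ (mem_irrF.mp hχ)
      rw [hmu χ (mem_irrF.mp hχ)] at h2
      have h3 : (mu χ : ℤ) = A.ord χ := by exact_mod_cast h2
      rw [h3]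
    · intro h χ hχ
      rw [hdim, hrd] at h
      have h2 : ∀ ψ ∈ irrF G, A.ord ψ * dg ψ ≤ (mu ψ : ℤ) * dg ψ := by
        intro ψ hψ
        exact mul_le_mul_of_nonneg_right (hle ψ (mem_irrF.mp hψ)) (by positivity)
      have h3 := (Finset.sum_eq_sum_iff_of_le h2).mp (le_antisymm (Finset.sum_le_sum h2) h) χ
        (mem_irrF.mpr hχ)
      have h4 : (dg χ : ℤ) ≠ 0 := by exact_mod_cast (hdg0 χ hχ).ne'
      have h5 := mul_right_cancel₀ h4 h3
      rw [hmu χ hχ, h5]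
      simp
  refine ⟨fun χ hχ => ⟨mu χ, hmu χ hχ, hle χ hχ⟩, ?_, hA, ?_⟩
  · intro H
    obtain ⟨k, hk1, hk2⟩ := hrk H
    rw [hk1]
    exact_mod_cast hk2
  · constructor
    · intro h
      have h2 := h ⊥
      unfold RankHolds at h2
      rw [rk_bot] at h2
      choose! m hm using fun χ (hχ : χ ∈ Irr G) => exists_mult hχ (⊥ : Subgroup G) 1
      have h3 := A.order_Lin ⊥ 1 m hm
      rw [h2] at h3
      have h4 : (Module.finrank ℂ V : ℤ) = ∑ χ ∈ irrF G, (m χ : ℤ) * A.ord χ := by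
        exact_mod_cast h3
      rw [h4, hrd]
      refine (Finset.sum_congr rfl fun χ hχ => ?_).le
      have h5 := hm χ (mem_irrF.mp hχ)
      rw [finsum_unique] at h5
      have h6 : ((default : (⊥ : Subgroup G)) : G) = 1 := rfl
      have h7 : (default : (⊥ : Subgroup G)) = 1 := rfl
      rw [h6, h7, map_one, inv_one, Units.val_one, mul_one, hdg χ (mem_irrF.mp hχ),
        Subgroup.card_bot, Nat.cast_one, mul_one] at h5
      have h8 : m χ = dg χ := by exact_mod_cast h5.symm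
      rw [h8]
      ring
    · intro h H
      have h2 := hA.mpr h
      choose! m hm using fun χ (hχ : χ ∈ Irr G) => exists_mult hχ H 1
      unfold RankHolds
      rw [A.order_Lin H 1 m hm]
      have h3 := rk_eq ρ H m hm
      have h4 : (rk ρ H : ℤ) = ∑ χ ∈ irrF G, (m χ : ℤ) * A.ord χ := by
        have h5 : (rk ρ H : ℂ) = ((∑ χ ∈ irrF G, (m χ : ℤ) * A.ord χ : ℤ) : ℂ) := by
          rw [h3]
          push_cast
          exact Finset.sum_congr rfl fun χ hχ => by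
            rw [h2 χ (mem_irrF.mp hχ)]; ring
        exact_mod_cast h5
      rw [h4]

end Pool.Agent.Q7.GR
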